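import Pool.Agent.Lib_MP_97158b_co.Tilt

set_option autoImplicit false

open Finset Filter MeasureTheory

namespace Pool.Agent.Lib_MP_97158b_co

/-! ### The untilted law is symmetric -/

lemma qq_zero (i : ℕ) : qq 0 i = 1 := by unfold qq; simp

lemma Z_one (d : ℕ) : Z d 1 = d := by unfold Z; simp

lemma w_one (d x : ℕ) : w d 1 x = 1 / d := by unfold w; rw [Z_one, one_pow]

lemma mu_one (d : ℕ) (hd : 1 ≤ d) : mu d 1 = ((d : ℝ) - 1) / 2 := by
  have hd0 : (d : ℝ) ≠ 0 := by exact_mod_cast (by omega : d ≠ 0)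
  unfold mu
  simp_rw [w_one]
  rw [← Finset.sum_mul]
  have h := Finset.sum_range_id_mul_two d
  have h2 : (∑ x ∈ range d, (x : ℝ)) * 2 = d * ((d : ℝ) - 1) := by
    have h3 : ((∑ x ∈ range d, x : ℕ) : ℝ) * 2 = ((d * (d - 1) : ℕ) : ℝ) := by exact_mod_cast h
    rw [Nat.cast_sum, Nat.cast_mul, Nat.cast_sub hd] at h3
    simpa using h3
  field_simp
  linarith

lemma M_zero (d n : ℕ) (hd : 1 ≤ d) : M d n 0 = (deg d n : ℝ) / 2 := by
  unfold M deg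
  simp_rw [qq_zero, mu_one d hd]
  rw [Nat.cast_sum, Finset.sum_div]
  refine Finset.sum_congr rfl fun i _ => ?_
  rw [Nat.cast_mul, Nat.cast_sub hd]
  push_cast; ring

lemma phi_one_im (d : ℕ) (hd : 1 ≤ d) (t : ℝ) : (phi d 1 t).im = 0 := by
  unfold phi
  rw [Complex.im_sum]
  have h1 : ∀ x ∈ range d, ((w d 1 x : ℂ) *
      Complex.exp (((t * ((x : ℝ) - mu d 1) : ℝ) : ℂ) * Complex.I)).im
      = 1 / d * Real.sin (t * ((x : ℝ) - ((d : ℝ) - 1) / 2)) := by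
    intro x _
    rw [Complex.im_ofReal_mul, Complex.exp_ofReal_mul_I_im, w_one, mu_one d hd]
  rw [Finset.sum_congr rfl h1]
  have h2 := Finset.sum_range_reflect
    (fun x : ℕ => 1 / (d : ℝ) * Real.sin (t * ((x : ℝ) - ((d : ℝ) - 1) / 2))) d
  have h3 : ∑ j ∈ range d, (1 / (d : ℝ) * Real.sin (t * (((d - 1 - j : ℕ) : ℝ) - ((d : ℝ) - 1) / 2)))
      = - ∑ j ∈ range d, (1 / (d : ℝ) * Real.sin (t * ((j : ℝ) - ((d : ℝ) - 1) / 2))) := by
    rw [← Finset.sum_neg_distrib]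
    refine Finset.sum_congr rfl fun j hj => ?_
    rw [Finset.mem_range] at hj
    have h4 : ((d - 1 - j : ℕ) : ℝ) = (d : ℝ) - 1 - j := by
      rw [Nat.cast_sub (by omega), Nat.cast_sub hd]; simp
    rw [h4]
    have h5 : t * ((d : ℝ) - 1 - j - ((d : ℝ) - 1) / 2)
        = -(t * ((j : ℝ) - ((d : ℝ) - 1) / 2)) := by ring
    rw [h5, Real.sin_neg]; ring
  rw [h3] at h2
  linarith

lemma psi_zero_im (d n : ℕ) (hd : 1 ≤ d) (θ : ℝ) : (psi d n 0 θ).im = 0 := by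
  have h : psi d n 0 θ = ((∏ i ∈ Icc 1 n, (phi d 1 (i * θ)).re : ℝ) : ℂ) := by
    unfold psi
    rw [Complex.ofReal_prod]
    refine Finset.prod_congr rfl fun i _ => ?_
    rw [qq_zero]
    apply Complex.ext
    · simp
    · simp [phi_one_im d hd]
  rw [h, Complex.ofReal_im]

lemma ker_re_eq (v θ : ℝ) :
    (ker 0 v θ).re = 2 * Real.sin ((v + 1 / 2) * θ) * Real.sin (θ / 2) := by
  have h1 : ker 0 v θ = Complex.exp ((v * θ : ℝ) * Complex.I)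
      - Complex.exp (((v + 1) * θ : ℝ) * Complex.I) := by
    unfold ker
    rw [mul_sub, mul_one, ← Complex.exp_add]
    congr 2
    push_cast; ring
  rw [h1, Complex.sub_re, Complex.exp_ofReal_mul_I_re, Complex.exp_ofReal_mul_I_re]
  have h2 : v * θ = (v + 1 / 2) * θ - θ / 2 := by ring
  have h3 : (v + 1) * θ = (v + 1 / 2) * θ + θ / 2 := by ring
  rw [h2, h3, Real.cos_sub, Real.cos_add]
  ring

lemma ker_re_abs (v θ : ℝ) (hv : 0 ≤ v) : |(ker 0 v θ).re| ≤ (v + 1 / 2) * θ ^ 2 := by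
  rw [ker_re_eq, abs_mul, abs_mul]
  have h1 : |Real.sin ((v + 1 / 2) * θ)| ≤ (v + 1 / 2) * |θ| := by
    have := Real.abs_sin_le_abs (x := (v + 1 / 2) * θ)
    rwa [abs_mul, abs_of_nonneg (by linarith : 0 ≤ v + 1 / 2)] at this
  have h2 : |Real.sin (θ / 2)| ≤ |θ| / 2 := by
    have := Real.abs_sin_le_abs (x := θ / 2)
    rwa [abs_div, abs_two] at this
  rw [abs_two]
  calc 2 * |Real.sin ((v + 1 / 2) * θ)| * |Real.sin (θ / 2)|
      ≤ 2 * ((v + 1 / 2) * |θ|) * (|θ| / 2) := by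
        apply mul_le_mul _ h2 (abs_nonneg _) (by positivity)
        linarith
    _ = (v + 1 / 2) * |θ| ^ 2 := by ring
    _ = _ := by rw [sq_abs]

lemma ker_re_ge (v θ : ℝ) (hv : 0 ≤ v) (hθ : |θ| ≤ Real.pi) :
    (v + 1 / 2) * (2 / 5 * θ ^ 2 - 2 * (v + 1 / 2) ^ 2 * θ ^ 4) ≤ (ker 0 v θ).re := by
  have hpi := Real.pi_pos
  set u := v + 1 / 2 with hu
  have hu0 : 0 < u := by linarith
  by_cases hcase : u * |θ| ≤ 1
  · have h1 : (ker 0 v θ).re = 2 * Real.sin (u * |θ|) * Real.sin (|θ| / 2) := by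
      rw [ker_re_eq, ← hu]
      rcases abs_cases θ with ⟨h, _⟩ | ⟨h, _⟩
      · rw [h]
      · rw [h, mul_neg, neg_div, Real.sin_neg, Real.sin_neg]; ring
    rw [h1]
    have h2 := Real.mul_le_sin (x := u * |θ|) (by positivity) (by linarith [Real.pi_gt_three])
    have h3 := Real.mul_le_sin (x := |θ| / 2) (by positivity) (by linarith)
    have h4 : (2 / Real.pi * (u * |θ|)) * (2 / Real.pi * (|θ| / 2))
        ≤ Real.sin (u * |θ|) * Real.sin (|θ| / 2) :=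
      mul_le_mul h2 h3 (by positivity) ((by positivity : 0 ≤ 2 / Real.pi * (u * |θ|)).trans h2)
    have h5 : (2 / Real.pi * (u * |θ|)) * (2 / Real.pi * (|θ| / 2))
        = 2 / Real.pi ^ 2 * (u * θ ^ 2) := by
      rw [← sq_abs θ]; field_simp
    rw [h5] at h4
    have h6 : (1 : ℝ) / 5 ≤ 2 / Real.pi ^ 2 := by
      rw [div_le_div_iff₀ (by norm_num) (by positivity)]
      nlinarith [Real.pi_lt_d2, Real.pi_gt_three]
    have h7 : 1 / 5 * (u * θ ^ 2) ≤ 2 / Real.pi ^ 2 * (u * θ ^ 2) :=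
      mul_le_mul_of_nonneg_right h6 (by positivity)
    have h8 : 0 ≤ u * (2 * u ^ 2 * θ ^ 4) := by positivity
    nlinarith
  · push Not at hcase
    have h1 := ker_re_abs v θ hv
    have h2 := neg_abs_le (ker 0 v θ).re
    have h3 : 1 ≤ u ^ 2 * θ ^ 2 := by
      rw [← sq_abs θ]
      nlinarith
    have h4 : u * θ ^ 2 ≤ u * θ ^ 2 * (u ^ 2 * θ ^ 2) :=
      le_mul_of_one_le_right (by positivity) h3
    have h5 : 0 ≤ u * θ ^ 2 := by positivity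
    rw [← hu] at h1
    nlinarith

lemma G_le {d n : ℕ} {s : ℝ} {m : ℕ} (hd : 2 ≤ d) (h : Adm n s m) (β : ℝ)
    (hβ : β ^ 2 = 1 / (18 * (d : ℝ) ^ 2) * (m : ℝ) ^ 3) (θ : ℝ) :
    G d n s θ ≤ Real.exp (-(β ^ 2 * θ ^ 2)) := by
  unfold G
  apply Real.exp_le_exp.mpr
  have h1 := sig2_ge hd h
  have h2 : β ^ 2 ≤ sig2 d n s / 2 := by
    rw [hβ]
    have : 1 / (18 * (d : ℝ) ^ 2) * (m : ℝ) ^ 3 = (1 / (9 * (d : ℝ) ^ 2) * (m : ℝ) ^ 3) / 2 := by
      field_simp; ring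
    rw [this]; linarith
  have h3 := mul_le_mul_of_nonneg_right h2 (sq_nonneg θ)
  linarith

lemma adm_zero (n : ℕ) (hn : 1 ≤ n) : Adm n 0 n where
  one_le := hn
  le_n := le_refl n
  s_nonneg := le_refl 0
  s_le := by norm_num
  alt := Or.inl rfl

theorem central_bound {d n : ℕ} (hd : 2 ≤ d) (hn : 1 ≤ n) (v : ℝ) (hv : 0 ≤ v) (ρ β β1 : ℝ)
    (hρ0 : 0 ≤ ρ) (hρ1 : ρ ≤ Real.pi) (hρ : d ^ 3 * KK 2 * (n : ℝ) ^ 3 * ρ ^ 2 ≤ 1)
    (hβ : 0 < β) (hβ2 : β ^ 2 = 1 / (45 * (d : ℝ) ^ 2) * (n : ℝ) ^ 3)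
    (hβ1 : 0 < β1) (hβ12 : β1 ^ 2 = 1 / (18 * (d : ℝ) ^ 2) * (n : ℝ) ^ 3) :
    (v + 1 / 2) * (2 / 15 * ρ ^ 3 - 2 * (v + 1 / 2) ^ 2 * (gp 4 / β1 ^ 5)
        - AA d * (n : ℝ) ^ 4 * (gp 5 / β ^ 6 + 2000 * Real.exp (-(1 / (6 * (d : ℝ) ^ 2) * n))))
      ≤ ∫ θ in (-Real.pi)..Real.pi, (psi d n 0 θ * ker 0 v θ).re := by
  have hpi := Real.pi_pos
  have hd1 : 1 ≤ d := by omega
  have h := adm_zero n hn
  set u := v + 1 / 2 with hu
  have hu0 : 0 < u := by linarith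
  set E2 := Real.exp (-(1 / (6 * (d : ℝ) ^ 2) * n)) with hE2
  have hE2pos : 0 < E2 := Real.exp_pos _
  have hApos := AA_pos hd
  set F : ℝ → ℝ := fun θ => u * (2 / 5 * (θ ^ 2 * G d n 0 θ)
      - 2 * u ^ 2 * (|θ| ^ 4 * Real.exp (-(β1 ^ 2 * θ ^ 2)))
      - AA d * (n : ℝ) ^ 4 * (|θ| ^ 5 * Real.exp (-(β ^ 2 * θ ^ 2)) + 311 * E2)) with hF
  have hFcont : Continuous F := by
    have := continuous_G d n 0
    simp only [hF]; fun_prop
  have hRcont : Continuous (fun θ => (psi d n 0 θ * ker 0 v θ).re) :=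
    Complex.continuous_re.comp ((continuous_psi d n 0).mul (continuous_ker 0 v))
  have hpt : ∀ θ ∈ Set.Icc (-Real.pi) Real.pi, F θ ≤ (psi d n 0 θ * ker 0 v θ).re := by
    intro θ hθ
    have habs : |θ| ≤ Real.pi := abs_le.mpr ⟨hθ.1, hθ.2⟩
    have h1 := psi_sub_G hd h θ habs
    have e1 : -(1 / (45 * (d : ℝ) ^ 2) * (n : ℝ) ^ 3 * θ ^ 2) = -(β ^ 2 * θ ^ 2) := by rw [hβ2]
    rw [e1, ← hE2] at h1
    have h2 : (psi d n 0 θ * ker 0 v θ).re = (psi d n 0 θ).re * (ker 0 v θ).re := by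
      rw [Complex.mul_re, psi_zero_im d n hd1, zero_mul, sub_zero]
    rw [h2]
    have h3 : |(psi d n 0 θ).re - G d n 0 θ| ≤ ‖psi d n 0 θ - (G d n 0 θ : ℂ)‖ := by
      have := Complex.abs_re_le_norm (psi d n 0 θ - (G d n 0 θ : ℂ))
      rwa [Complex.sub_re, Complex.ofReal_re] at this
    have h4 := ker_re_ge v θ hv habs
    rw [← hu] at h4
    have h5 := ker_re_abs v θ hv
    rw [← hu] at h5
    have h6 : (psi d n 0 θ).re * (ker 0 v θ).re = G d n 0 θ * (ker 0 v θ).re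
        + ((psi d n 0 θ).re - G d n 0 θ) * (ker 0 v θ).re := by ring
    rw [h6]
    have h7 : G d n 0 θ * (u * (2 / 5 * θ ^ 2 - 2 * u ^ 2 * θ ^ 4)) ≤ G d n 0 θ * (ker 0 v θ).re :=
      mul_le_mul_of_nonneg_left h4 (G_pos d n 0 θ).le
    have h8 : G d n 0 θ * θ ^ 4 ≤ |θ| ^ 4 * Real.exp (-(β1 ^ 2 * θ ^ 2)) := by
      have h9 := G_le hd h β1 hβ12 θ
      have h10 : θ ^ 4 = |θ| ^ 4 := ((by decide : Even 4).pow_abs θ).symm
      rw [h10, mul_comm]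
      exact mul_le_mul_of_nonneg_left h9 (by positivity)
    have h11 : -(‖psi d n 0 θ - (G d n 0 θ : ℂ)‖ * (u * θ ^ 2))
        ≤ ((psi d n 0 θ).re - G d n 0 θ) * (ker 0 v θ).re := by
      have h12 := neg_abs_le (((psi d n 0 θ).re - G d n 0 θ) * (ker 0 v θ).re)
      rw [abs_mul] at h12
      have h13 := mul_le_mul h3 h5 (abs_nonneg _) (norm_nonneg _)
      linarith
    have h14 : ‖psi d n 0 θ - (G d n 0 θ : ℂ)‖ * (u * θ ^ 2)
        ≤ u * (AA d * (n : ℝ) ^ 4 * (|θ| ^ 5 * Real.exp (-(β ^ 2 * θ ^ 2)) + 311 * E2)) := by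
      have h15 : ‖psi d n 0 θ - (G d n 0 θ : ℂ)‖ * (u * θ ^ 2)
          ≤ (AA d * (n : ℝ) ^ 4 * |θ| ^ 3 * (Real.exp (-(β ^ 2 * θ ^ 2)) + E2)) * (u * θ ^ 2) :=
        mul_le_mul_of_nonneg_right h1 (by positivity)
      refine h15.trans ?_
      have h16 : |θ| ^ 5 ≤ 311 := by
        calc |θ| ^ 5 ≤ (3.15 : ℝ) ^ 5 :=
              pow_le_pow_left₀ (abs_nonneg _) (habs.trans Real.pi_lt_d2.le) 5
          _ ≤ 311 := by norm_num
      have h17 : |θ| ^ 5 * E2 ≤ 311 * E2 := mul_le_mul_of_nonneg_right h16 hE2pos.le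
      calc (AA d * (n : ℝ) ^ 4 * |θ| ^ 3 * (Real.exp (-(β ^ 2 * θ ^ 2)) + E2)) * (u * θ ^ 2)
          = (AA d * (n : ℝ) ^ 4 * |θ| ^ 3 * (Real.exp (-(β ^ 2 * θ ^ 2)) + E2)) * (u * |θ| ^ 2) := by
            rw [sq_abs]
        _ = u * (AA d * (n : ℝ) ^ 4 * (|θ| ^ 5 * Real.exp (-(β ^ 2 * θ ^ 2)) + |θ| ^ 5 * E2)) := by
            ring
        _ ≤ _ := by
            apply mul_le_mul_of_nonneg_left _ hu0.le
            apply mul_le_mul_of_nonneg_left _ (by positivity)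
            linarith
    simp only [hF]
    have h18 : 2 * u ^ 3 * (G d n 0 θ * θ ^ 4)
        ≤ 2 * u ^ 3 * (|θ| ^ 4 * Real.exp (-(β1 ^ 2 * θ ^ 2))) :=
      mul_le_mul_of_nonneg_left h8 (by positivity)
    nlinarith
  have hint := intervalIntegral.integral_mono_on (μ := volume) (by linarith : -Real.pi ≤ Real.pi)
    (hFcont.intervalIntegrable _ _) (hRcont.intervalIntegrable _ _) hpt
  refine le_trans ?_ hint
  have hcE5 : Continuous (fun θ : ℝ => |θ| ^ 5 * Real.exp (-(β ^ 2 * θ ^ 2))) := by fun_prop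
  have hcE4 : Continuous (fun θ : ℝ => |θ| ^ 4 * Real.exp (-(β1 ^ 2 * θ ^ 2))) := by fun_prop
  have hcG : Continuous (fun θ : ℝ => θ ^ 2 * G d n 0 θ) := by
    have := continuous_G d n 0; fun_prop
  have hFint : ∫ θ in (-Real.pi)..Real.pi, F θ
      = u * (2 / 5 * (∫ θ in (-Real.pi)..Real.pi, θ ^ 2 * G d n 0 θ)
        - 2 * u ^ 2 * (∫ θ in (-Real.pi)..Real.pi, |θ| ^ 4 * Real.exp (-(β1 ^ 2 * θ ^ 2)))
        - AA d * (n : ℝ) ^ 4 * ((∫ θ in (-Real.pi)..Real.pi, |θ| ^ 5 * Real.exp (-(β ^ 2 * θ ^ 2)))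
          + 2 * Real.pi * (311 * E2))) := by
    have i1 : IntervalIntegrable (fun θ : ℝ => |θ| ^ 5 * Real.exp (-(β ^ 2 * θ ^ 2)))
        volume (-Real.pi) Real.pi := hcE5.intervalIntegrable _ _
    have i2 : IntervalIntegrable (fun θ : ℝ => 2 * u ^ 2 * (|θ| ^ 4 * Real.exp (-(β1 ^ 2 * θ ^ 2))))
        volume (-Real.pi) Real.pi := (continuous_const.mul hcE4).intervalIntegrable _ _
    have i3 : IntervalIntegrable (fun _ : ℝ => 311 * E2)
        volume (-Real.pi) Real.pi := continuous_const.intervalIntegrable _ _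
    have i4 : IntervalIntegrable (fun θ : ℝ => 2 / 5 * (θ ^ 2 * G d n 0 θ))
        volume (-Real.pi) Real.pi := (continuous_const.mul hcG).intervalIntegrable _ _
    have i5 : IntervalIntegrable (fun θ : ℝ => AA d * (n : ℝ) ^ 4 *
        (|θ| ^ 5 * Real.exp (-(β ^ 2 * θ ^ 2)) + 311 * E2)) volume (-Real.pi) Real.pi :=
      (i1.add i3).const_mul _
    simp only [hF]
    rw [intervalIntegral.integral_const_mul, intervalIntegral.integral_sub (i4.sub i2) i5,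
      intervalIntegral.integral_sub i4 i2, intervalIntegral.integral_const_mul,
      intervalIntegral.integral_const_mul, intervalIntegral.integral_const_mul,
      intervalIntegral.integral_add i1 i3, intervalIntegral.integral_const]
    simp only [smul_eq_mul]; ring
  rw [hFint]
  have hG := int_sq_G_ge d n hd1 0 _ ρ (sig2_le hd1 h) hρ0 hρ1 hρ
  have hg4 := gauss_moment 4 β1 hβ1
  have hg5 := gauss_moment 5 β hβ
  apply mul_le_mul_of_nonneg_left _ hu0.le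
  have h2 : 2 * u ^ 2 * (∫ θ in (-Real.pi)..Real.pi, |θ| ^ 4 * Real.exp (-(β1 ^ 2 * θ ^ 2)))
      ≤ 2 * u ^ 2 * (gp 4 / β1 ^ 5) := mul_le_mul_of_nonneg_left hg4 (by positivity)
  have h3 : 2 * Real.pi * (311 * E2) ≤ 2000 * E2 := by
    nlinarith [Real.pi_lt_d2]
  have h4 : AA d * (n : ℝ) ^ 4 * ((∫ θ in (-Real.pi)..Real.pi, |θ| ^ 5 * Real.exp (-(β ^ 2 * θ ^ 2)))
          + 2 * Real.pi * (311 * E2))
      ≤ AA d * (n : ℝ) ^ 4 * (gp 5 / β ^ 6 + 2000 * E2) := by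
    apply mul_le_mul_of_nonneg_left _ (by positivity)
    linarith
  linarith

/-- Positivity in the central regime. -/
theorem central_pos (d : ℕ) (hd : 2 ≤ d) (C : ℝ) : ∃ M0 : ℕ, ∀ n : ℕ, M0 ≤ n →
    ∀ v : ℝ, 0 ≤ v → v + 1 / 2 ≤ C * n →
      0 ≤ ∫ θ in (-Real.pi)..Real.pi, (psi d n 0 θ * ker 0 v θ).re := by
  have hd0 : (0 : ℝ) < d := by exact_mod_cast (by omega : 0 < d)
  have hd1 : (1 : ℝ) ≤ d := by exact_mod_cast (by omega : 1 ≤ d)
  have hA := AA_pos hd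
  have hg4 := gp_pos 4
  have hg5 := gp_pos 5
  set B2 : ℝ := d ^ 3 * KK 2 with hB2
  have hB2pos : 0 < B2 := by have := KK_pos 2; positivity
  have hB2one : 1 ≤ B2 := by
    have h1 : (1 : ℝ) ≤ KK 2 := by
      unfold KK
      have : (0 : ℝ) ≤ ((2 + 2).factorial : ℝ) * 2 ^ (2 + 2) := by positivity
      linarith
    have h2 : (1 : ℝ) ≤ (d : ℝ) ^ 3 := one_le_pow₀ hd1
    nlinarith
  set c2 : ℝ := 1 / (45 * (d : ℝ) ^ 2) with hc2
  have hc2pos : 0 < c2 := by positivity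
  set c1 : ℝ := 1 / (18 * (d : ℝ) ^ 2) with hc1
  have hc1pos : 0 < c1 := by positivity
  set c3 : ℝ := 1 / (6 * (d : ℝ) ^ 2) with hc3
  have hc3pos : 0 < c3 := by positivity
  set b : ℝ := Real.sqrt B2 with hb
  have hbpos : 0 < b := Real.sqrt_pos.mpr hB2pos
  have hb2 : b ^ 2 = B2 := Real.sq_sqrt hB2pos.le
  set γ : ℝ := Real.sqrt c2 with hγ
  have hγpos : 0 < γ := Real.sqrt_pos.mpr hc2pos
  have hγ2 : γ ^ 2 = c2 := Real.sq_sqrt hc2pos.le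
  set δ : ℝ := Real.sqrt c1 with hδ
  have hδpos : 0 < δ := Real.sqrt_pos.mpr hc1pos
  have hδ2 : δ ^ 2 = c1 := Real.sq_sqrt hc1pos.le
  set η : ℝ := 1 / (30 * b ^ 3) with hη
  have hηpos : 0 < η := by positivity
  obtain ⟨N1, hN1⟩ := exists_nat_ge (2 * C ^ 2 * gp 4 / δ ^ 5 / η)
  have ev1 := ev_sqrt (η * γ ^ 6 / (AA d * gp 5)) (by positivity)
  have ev2 := ev_exp 10 c3 hc3pos (η / (2000 * AA d)) (by positivity)
  obtain ⟨M0, hM0⟩ := (((ev1.and ev2).and (eventually_ge_atTop 1)).and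
    (eventually_ge_atTop N1)).exists_forall_of_atTop
  refine ⟨M0, fun n hn v hv hvC => ?_⟩
  obtain ⟨⟨⟨h1, h2⟩, h3⟩, h4⟩ := hM0 n hn
  have hn1 : (1 : ℝ) ≤ n := by exact_mod_cast h3
  have hn0 : (0 : ℝ) < n := by linarith
  have hN1' : 2 * C ^ 2 * gp 4 / δ ^ 5 / η ≤ (n : ℝ) := hN1.trans (by exact_mod_cast h4)
  set r : ℝ := Real.sqrt ((n : ℝ) ^ 3) with hr
  have hrpos : 0 < r := Real.sqrt_pos.mpr (by positivity)
  have hr2 : r ^ 2 = (n : ℝ) ^ 3 := Real.sq_sqrt (by positivity)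
  have hrm : r ≤ (n : ℝ) ^ 2 := by
    rw [hr, Real.sqrt_le_left (by positivity)]
    calc (n : ℝ) ^ 3 ≤ (n : ℝ) ^ 4 := pow_le_pow_right₀ hn1 (by norm_num)
      _ = _ := by ring
  set u := v + 1 / 2 with hu
  have hu0 : 0 < u := by linarith
  have hbound := central_bound hd h3 v hv (1 / (b * r)) (γ * r) (δ * r) (by positivity) ?_ ?_
    (by positivity) ?_ (by positivity) ?_
  · refine le_trans ?_ hbound
    apply mul_nonneg hu0.le
    set E2 := Real.exp (-(c3 * n)) with hE2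
    have hE2pos : 0 < E2 := Real.exp_pos _
    rw [← hu]
    have t0 : 2 / 15 * (1 / (b * r)) ^ 3 = 4 * (η / r ^ 3) := by
      rw [hη]; field_simp; ring
    have t1 : 2 * u ^ 2 * (gp 4 / (δ * r) ^ 5) ≤ η / r ^ 3 := by
      have e1 : (δ * r) ^ 5 = δ ^ 5 * (r ^ 3 * (n : ℝ) ^ 3) := by
        rw [mul_pow, ← hr2]; ring
      rw [e1, le_div_iff₀ (by positivity)]
      have e2 : 2 * u ^ 2 * (gp 4 / (δ ^ 5 * (r ^ 3 * (n : ℝ) ^ 3))) * r ^ 3
          = (2 * u ^ 2 * gp 4 / δ ^ 5) / (n : ℝ) ^ 3 := by field_simp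
      rw [e2, div_le_iff₀ (by positivity)]
      have h5 : u ^ 2 ≤ (C * n) ^ 2 := pow_le_pow_left₀ hu0.le hvC 2
      have h6 : 2 * C ^ 2 * gp 4 / δ ^ 5 ≤ n * η := by
        rwa [div_le_iff₀ hηpos] at hN1'
      calc 2 * u ^ 2 * gp 4 / δ ^ 5 = u ^ 2 * (2 * gp 4 / δ ^ 5) := by ring
        _ ≤ (C * n) ^ 2 * (2 * gp 4 / δ ^ 5) := mul_le_mul_of_nonneg_right h5 (by positivity)
        _ = (2 * C ^ 2 * gp 4 / δ ^ 5) * (n : ℝ) ^ 2 := by ring
        _ ≤ (n * η) * (n : ℝ) ^ 2 := mul_le_mul_of_nonneg_right h6 (by positivity)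
        _ = η * (n : ℝ) ^ 3 := by ring
    have t2 : AA d * (n : ℝ) ^ 4 * (gp 5 / (γ * r) ^ 6) ≤ η / r ^ 3 := by
      have e1 : (γ * r) ^ 6 = γ ^ 6 * (r ^ 3 * (r * (n : ℝ) ^ 3)) := by
        rw [mul_pow, ← hr2]; ring
      rw [e1, le_div_iff₀ (by positivity)]
      have e2 : AA d * (n : ℝ) ^ 4 * (gp 5 / (γ ^ 6 * (r ^ 3 * (r * (n : ℝ) ^ 3)))) * r ^ 3
          = (AA d * gp 5 / γ ^ 6) * (n / r) := by field_simp
      rw [e2]
      have h5 : (n : ℝ) / r ≤ η * γ ^ 6 / (AA d * gp 5) := by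
        rw [div_le_iff₀ hrpos]
        have h6 := mul_le_mul_of_nonneg_right h1 hrpos.le
        have h7 : r * r = (n : ℝ) ^ 3 := by rw [← hr2]; ring
        rw [h7] at h6
        have h8 : (n : ℝ) * (n : ℝ) ^ 2
            ≤ (η * γ ^ 6 / (AA d * gp 5) * r) * (n : ℝ) ^ 2 := by
          calc (n : ℝ) * (n : ℝ) ^ 2 = (n : ℝ) ^ 3 := by ring
            _ ≤ _ := h6
            _ = _ := by ring
        exact le_of_mul_le_mul_right h8 (by positivity)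
      calc (AA d * gp 5 / γ ^ 6) * (n / r) ≤ (AA d * gp 5 / γ ^ 6) * (η * γ ^ 6 / (AA d * gp 5)) :=
            mul_le_mul_of_nonneg_left h5 (by positivity)
        _ = η := by field_simp
    have t3 : AA d * (n : ℝ) ^ 4 * (2000 * E2) ≤ η / r ^ 3 := by
      rw [le_div_iff₀ (by positivity)]
      have h5 : r ^ 3 ≤ ((n : ℝ) ^ 2) ^ 3 := pow_le_pow_left₀ hrpos.le hrm 3
      have h6 : 2000 * AA d * ((n : ℝ) ^ 10 * E2) ≤ η := by
        have := mul_le_mul_of_nonneg_left h2 (by positivity : 0 ≤ 2000 * AA d)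
        calc _ ≤ _ := this
          _ = _ := by field_simp
      calc AA d * (n : ℝ) ^ 4 * (2000 * E2) * r ^ 3
          ≤ AA d * (n : ℝ) ^ 4 * (2000 * E2) * ((n : ℝ) ^ 2) ^ 3 :=
            mul_le_mul_of_nonneg_left h5 (by positivity)
        _ = 2000 * AA d * ((n : ℝ) ^ 10 * E2) := by ring
        _ ≤ η := h6
    have e3 : AA d * (n : ℝ) ^ 4 * (gp 5 / (γ * r) ^ 6 + 2000 * E2)
        = AA d * (n : ℝ) ^ 4 * (gp 5 / (γ * r) ^ 6) + AA d * (n : ℝ) ^ 4 * (2000 * E2) := by ring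
    have hpos : 0 ≤ η / r ^ 3 := by positivity
    rw [e3, t0]
    linarith
  · have hb1 : 1 ≤ b := by rw [hb, Real.one_le_sqrt]; exact hB2one
    have hr1 : 1 ≤ r := by rw [hr, Real.one_le_sqrt]; exact one_le_pow₀ hn1
    have : 1 / (b * r) ≤ 1 := by
      rw [div_le_one (by positivity)]; nlinarith
    linarith [Real.pi_gt_three]
  · rw [div_pow, mul_pow, hb2, hr2, one_pow, mul_one_div, div_le_one (by positivity)]
  · rw [mul_pow, hγ2, hr2]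
  · rw [mul_pow, hδ2, hr2]

end Pool.Agent.Lib_MP_97158b_co
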