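import Mathlib

set_option autoImplicit false

open Polynomial Finset

namespace Pool.Agent.Lib_MP_97158b_co

/-- the factor `1 + t^i + ... + t^{i(d-1)}` -/
noncomputable def blk (d i : ℕ) : ℕ[X] := ∑ k ∈ range d, (X : ℕ[X]) ^ (i * k)

/-- the polynomial `p_{n,d}` -/
noncomputable def P (d n : ℕ) : ℕ[X] := ∏ i ∈ Icc 1 n, blk d i

/-- its degree -/
def deg (d n : ℕ) : ℕ := ∑ i ∈ Icc 1 n, i * (d - 1)

lemma two_deg (d n : ℕ) : 2 * deg d n = (d - 1) * (n * (n + 1)) := by
  unfold deg
  rw [← Finset.sum_mul]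
  have h : (∑ i ∈ Icc 1 n, i) * 2 = n * (n + 1) := by
    have h1 := Finset.sum_range_id_mul_two (n + 1)
    have h2 : ∑ i ∈ range (n + 1), i = ∑ i ∈ Icc 1 n, i := by
      rw [Finset.range_eq_Ico, Finset.sum_eq_sum_Ico_succ_bot (by omega)]
      simp only [zero_add]
      rfl
    rw [h2] at h1
    rw [h1]; simp; ring
  nlinarith [h]

lemma reflect_blk (d i : ℕ) : reflect (i * (d - 1)) (blk d i) = blk d i := by
  unfold blk
  have hsum : ∀ (N : ℕ) (s : Finset ℕ) (f : ℕ → ℕ[X]),
      reflect N (∑ k ∈ s, f k) = ∑ k ∈ s, reflect N (f k) := by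
    intro N s f
    classical
    induction s using Finset.induction_on with
    | empty => simp
    | insert a s ha ih => rw [Finset.sum_insert ha, Finset.sum_insert ha, reflect_add, ih]
  rw [hsum]
  rw [← Finset.sum_range_reflect]
  refine Finset.sum_congr rfl fun k hk => ?_
  rw [Finset.mem_range] at hk
  rw [reflect_monomial]
  congr 1
  have h1 : i * (d - 1 - k) ≤ i * (d - 1) := Nat.mul_le_mul_left _ (Nat.sub_le _ _)
  rw [revAt_le h1]
  rw [← Nat.mul_sub]
  congr 1; omega

lemma natDegree_blk (d i : ℕ) : (blk d i).natDegree ≤ i * (d - 1) := by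
  unfold blk
  apply natDegree_sum_le_of_forall_le
  intro k hk
  rw [Finset.mem_range] at hk
  rw [natDegree_X_pow]
  exact Nat.mul_le_mul_left _ (by omega)

lemma P_succ (d n : ℕ) : P d (n + 1) = P d n * blk d (n + 1) := by
  unfold P
  rw [Finset.prod_Icc_succ_top (by omega)]

lemma deg_succ (d n : ℕ) : deg d (n + 1) = deg d n + (n + 1) * (d - 1) := by
  unfold deg
  rw [Finset.sum_Icc_succ_top (by omega)]

lemma P_natDegree (d n : ℕ) : (P d n).natDegree ≤ deg d n := by
  induction n with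
  | zero => simp [P, deg]
  | succ n ih =>
    rw [P_succ, deg_succ]
    exact natDegree_mul_le_of_le ih (natDegree_blk d (n + 1))

lemma P_reflect (d n : ℕ) (hd : 1 ≤ d) : reflect (deg d n) (P d n) = P d n := by
  induction n with
  | zero => simp [P, deg]
  | succ n ih =>
    rw [P_succ, deg_succ, reflect_mul _ _ (P_natDegree d n) (natDegree_blk d (n + 1)), ih,
      reflect_blk _ _]

lemma P_symm (d n k : ℕ) (hd : 1 ≤ d) (hk : k ≤ deg d n) :
    (P d n).coeff k = (P d n).coeff (deg d n - k) := by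
  conv_lhs => rw [← P_reflect d n hd]
  rw [coeff_reflect, revAt_le hk]

/-- It suffices to check the left half. -/
theorem unimodal_of_half (d n : ℕ) (hd : 1 ≤ d)
    (h : ∀ k : ℕ, 1 ≤ k → 2 * k ≤ deg d n → (P d n).coeff (k - 1) ≤ (P d n).coeff k) :
    ∃ m : ℕ,
        (∀ a b : ℕ, a ≤ b → b ≤ m → (P d n).coeff a ≤ (P d n).coeff b) ∧
        (∀ a b : ℕ, m ≤ a → a ≤ b → (P d n).coeff b ≤ (P d n).coeff a) := by
  set N := deg d n with hN
  have hup : ∀ a b : ℕ, a ≤ b → 2 * b ≤ N → (P d n).coeff a ≤ (P d n).coeff b := by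
    intro a b hab
    induction b, hab using Nat.le_induction with
    | base => intro _; exact le_refl _
    | succ b hab ih =>
      intro hb
      have h1 := h (b + 1) (by omega) hb
      simp only [Nat.add_sub_cancel] at h1
      exact (ih (by omega)).trans h1
  refine ⟨N / 2, fun a b hab hb => hup a b hab (by omega), fun a b ha hab => ?_⟩
  by_cases hbN : b ≤ N
  · -- use symmetry
    have haN : a ≤ N := hab.trans hbN
    rw [P_symm d n a hd haN, P_symm d n b hd hbN]
    by_cases ha2 : 2 * (N - a) ≤ N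
    · exact hup _ _ (by omega) ha2
    · -- then `2 * a < N`, so `a = N / 2`
      have haeq : a = N / 2 := by omega
      by_cases hb2 : b = a
      · rw [hb2]
      · -- `N - b ≤ a`
        rw [← P_symm d n a hd haN]
        exact hup _ _ (by omega) (by omega)
  · have : (P d n).coeff b = 0 := by
      apply coeff_eq_zero_of_natDegree_lt
      exact lt_of_le_of_lt (P_natDegree d n) (by omega)
    rw [this]; exact Nat.zero_le _

/-! ### Exact monotonicity for small `k` -/

lemma prod_pow_blk (d r : ℕ) :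
    ∏ j ∈ range r, blk d (d ^ j) = ∑ x ∈ range (d ^ r), (X : ℕ[X]) ^ x := by
  induction r with
  | zero => simp
  | succ r ih =>
    rw [Finset.prod_range_succ, ih]
    have hmul : ∀ a b : ℕ, (∑ x ∈ range a, (X : ℕ[X]) ^ x) * (∑ k ∈ range b, (X : ℕ[X]) ^ (a * k))
        = ∑ x ∈ range (a * b), (X : ℕ[X]) ^ x := by
      intro a b
      induction b with
      | zero => simp
      | succ b ih2 =>
        rw [Finset.sum_range_succ, mul_add, ih2, Nat.mul_succ, Finset.sum_range_add]
        congr 1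
        rw [Finset.sum_mul]
        refine Finset.sum_congr rfl fun x _ => ?_
        rw [← pow_add, add_comm]
    unfold blk
    rw [hmul, pow_succ]

lemma coeff_mono_of_window (L : ℕ) (Q : ℕ[X]) (k : ℕ) (hk1 : 1 ≤ k) (hk : k < L) :
    ((∑ x ∈ range L, (X : ℕ[X]) ^ x) * Q).coeff (k - 1)
      ≤ ((∑ x ∈ range L, (X : ℕ[X]) ^ x) * Q).coeff k := by
  have hc : ∀ j : ℕ, ((∑ x ∈ range L, (X : ℕ[X]) ^ x) * Q).coeff j
      = ∑ x ∈ range L, if x ≤ j then Q.coeff (j - x) else 0 := by
    intro j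
    rw [Finset.sum_mul, finsetSum_coeff]
    refine Finset.sum_congr rfl fun x _ => ?_
    rw [coeff_X_pow_mul']
  rw [hc, hc]
  obtain ⟨L', rfl⟩ : ∃ L', L = L' + 1 := ⟨L - 1, by omega⟩
  rw [Finset.sum_range_succ, Finset.sum_range_succ' (fun x => if x ≤ k then Q.coeff (k - x) else 0)]
  have h1 : ¬ (L' ≤ k - 1) := by omega
  rw [if_neg h1, add_zero]
  refine le_trans ?_ (Nat.le_add_right _ _)
  apply Finset.sum_le_sum
  intro x _
  by_cases hx : x ≤ k - 1
  · rw [if_pos hx, if_pos (by omega)]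
    apply le_of_eq; congr 1; omega
  · rw [if_neg hx]; exact Nat.zero_le _

theorem mono_small (d n k : ℕ) (hd : 2 ≤ d) (hk1 : 1 ≤ k) (hk : k ≤ n) :
    (P d n).coeff (k - 1) ≤ (P d n).coeff k := by
  classical
  have hn : n ≠ 0 := by omega
  set r := Nat.log d n + 1 with hr
  have hlt : n < d ^ r := Nat.lt_pow_succ_log_self (by omega) n
  have hinj : Set.InjOn (fun j : ℕ => d ^ j) (range r : Set ℕ) := by
    intro a _ b _ hab
    exact Nat.pow_right_injective hd hab
  have hsub : (range r).image (fun j => d ^ j) ⊆ Icc 1 n := by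
    intro x hx
    rw [Finset.mem_image] at hx
    obtain ⟨j, hj, rfl⟩ := hx
    rw [Finset.mem_range] at hj
    rw [Finset.mem_Icc]
    refine ⟨Nat.one_le_pow _ _ (by omega), ?_⟩
    exact (Nat.pow_le_pow_right (by omega) (by omega : j ≤ Nat.log d n)).trans
      (Nat.pow_log_le_self d hn)
  have hP : P d n = (∑ x ∈ range (d ^ r), (X : ℕ[X]) ^ x)
      * ∏ i ∈ Icc 1 n \ (range r).image (fun j => d ^ j), blk d i := by
    unfold P
    rw [← Finset.prod_sdiff hsub, mul_comm, Finset.prod_image hinj, prod_pow_blk]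
  rw [hP]
  exact coeff_mono_of_window _ _ k hk1 (by omega)

end Pool.Agent.Lib_MP_97158b_co
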