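import Pool.Agent.Lib_MP_97158b_co.Factor

set_option autoImplicit false

open Finset

namespace Pool.Agent.Lib_MP_97158b_co

/-- `∑_{j ≤ m} (1 - cos (j θ))` -/
noncomputable def S (m : ℕ) (θ : ℝ) : ℝ := ∑ j ∈ Icc 1 m, (1 - Real.cos (j * θ))

lemma cos_sum (m : ℕ) (θ : ℝ) :
    2 * Real.sin (θ / 2) * ∑ j ∈ Icc 1 m, Real.cos (j * θ)
      = Real.sin ((m + 1 / 2) * θ) - Real.sin (θ / 2) := by
  induction m with
  | zero => simp; ring_nf
  | succ m ih =>
    rw [Finset.sum_Icc_succ_top (by omega), mul_add, ih]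
    have h1 : ((m + 1 : ℕ) + 1 / 2 : ℝ) * θ = (m + 1) * θ + θ / 2 := by push_cast; ring
    have h2 : ((m : ℝ) + 1 / 2) * θ = (m + 1) * θ - θ / 2 := by ring
    rw [h1, h2, Real.sin_add, Real.sin_sub]
    push_cast
    ring

lemma S_neg (m : ℕ) (θ : ℝ) : S m (-θ) = S m θ := by
  unfold S
  refine Finset.sum_congr rfl fun j _ => ?_
  rw [mul_neg, Real.cos_neg]

lemma sum_sq_ge (m : ℕ) : (m : ℝ) ^ 3 / 3 ≤ ∑ j ∈ Icc 1 m, (j : ℝ) ^ 2 := by
  induction m with
  | zero => simp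
  | succ m ih =>
    rw [Finset.sum_Icc_succ_top (by omega)]
    push_cast
    nlinarith [Nat.cast_nonneg (α := ℝ) m]

lemma S_lower_aux (m : ℕ) (hm : 1 ≤ m) (θ : ℝ) (h0 : 0 ≤ θ) (hθ : θ ≤ Real.pi) :
    1 / 15 * (m : ℝ) ^ 3 * θ ^ 2 ≤ S m θ ∨ (m : ℝ) / 2 ≤ S m θ := by
  have hpi := Real.pi_pos
  have hm' : (1 : ℝ) ≤ m := by exact_mod_cast hm
  by_cases hcase : m * θ ≤ Real.pi
  · left
    have h1 : ∀ j ∈ Icc 1 m, 2 / Real.pi ^ 2 * θ ^ 2 * (j : ℝ) ^ 2 ≤ 1 - Real.cos (j * θ) := by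
      intro j hj
      rw [Finset.mem_Icc] at hj
      have hj' : (j : ℝ) ≤ m := by exact_mod_cast hj.2
      have habs : |(j : ℝ) * θ| ≤ Real.pi := by
        rw [abs_of_nonneg (by positivity)]
        exact (mul_le_mul_of_nonneg_right hj' h0).trans hcase
      have := Real.cos_le_one_sub_mul_cos_sq habs
      have h2 : 2 / Real.pi ^ 2 * ((j : ℝ) * θ) ^ 2 = 2 / Real.pi ^ 2 * θ ^ 2 * (j : ℝ) ^ 2 := by
        ring
      linarith
    have h2 : 2 / Real.pi ^ 2 * θ ^ 2 * ∑ j ∈ Icc 1 m, (j : ℝ) ^ 2 ≤ S m θ := by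
      rw [Finset.mul_sum]; exact Finset.sum_le_sum h1
    refine le_trans ?_ h2
    have h3 := sum_sq_ge m
    have h4 : (1 : ℝ) / 5 ≤ 2 / Real.pi ^ 2 := by
      rw [div_le_div_iff₀ (by norm_num) (by positivity)]
      nlinarith [Real.pi_lt_d2, Real.pi_gt_three]
    calc 1 / 15 * (m : ℝ) ^ 3 * θ ^ 2 = 1 / 5 * θ ^ 2 * ((m : ℝ) ^ 3 / 3) := by ring
      _ ≤ 2 / Real.pi ^ 2 * θ ^ 2 * ((m : ℝ) ^ 3 / 3) := by
          apply mul_le_mul_of_nonneg_right _ (by positivity)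
          exact mul_le_mul_of_nonneg_right h4 (sq_nonneg θ)
      _ ≤ _ := mul_le_mul_of_nonneg_left h3 (by positivity)
  · right
    push Not at hcase
    have hθ0 : 0 < θ := by
      rcases h0.lt_or_eq with h | h
      · exact h
      · rw [← h] at hcase; simp at hcase; linarith
    have hsin : θ / Real.pi ≤ Real.sin (θ / 2) := by
      have := Real.mul_le_sin (x := θ / 2) (by linarith) (by linarith)
      calc θ / Real.pi = 2 / Real.pi * (θ / 2) := by ring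
        _ ≤ _ := this
    have hsinpos : 0 < Real.sin (θ / 2) := lt_of_lt_of_le (by positivity) hsin
    have hc := cos_sum m θ
    have h1 : 2 * Real.sin (θ / 2) * ∑ j ∈ Icc 1 m, Real.cos (j * θ) ≤ 1 := by
      rw [hc]; linarith [Real.sin_le_one ((m + 1 / 2) * θ)]
    have h2 : S m θ = m - ∑ j ∈ Icc 1 m, Real.cos (j * θ) := by
      unfold S; rw [Finset.sum_sub_distrib]; simp
    rw [h2]
    by_contra hcon
    push Not at hcon
    have h3 : (m : ℝ) / 2 < ∑ j ∈ Icc 1 m, Real.cos (j * θ) := by linarith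
    have h4 : 2 * Real.sin (θ / 2) * ((m : ℝ) / 2) < 1 := by
      refine lt_of_lt_of_le ?_ h1
      exact mul_lt_mul_of_pos_left h3 (by positivity)
    have h5 : (m : ℝ) * (θ / Real.pi) < 1 := by
      have : (m : ℝ) * (θ / Real.pi) ≤ m * Real.sin (θ / 2) :=
        mul_le_mul_of_nonneg_left hsin (by positivity)
      nlinarith
    rw [← mul_div_assoc, div_lt_one hpi] at h5
    linarith

lemma S_lower (m : ℕ) (hm : 1 ≤ m) (θ : ℝ) (hθ : |θ| ≤ Real.pi) :
    1 / 15 * (m : ℝ) ^ 3 * θ ^ 2 ≤ S m θ ∨ (m : ℝ) / 2 ≤ S m θ := by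
  rcases le_total 0 θ with h | h
  · exact S_lower_aux m hm θ h (by rwa [abs_of_nonneg h] at hθ)
  · have := S_lower_aux m hm (-θ) (by linarith) (by rwa [abs_of_nonpos h] at hθ)
    rwa [S_neg, neg_sq] at this

lemma exp_S_le (c : ℝ) (hc : 0 ≤ c) (m : ℕ) (hm : 1 ≤ m) (θ : ℝ) (hθ : |θ| ≤ Real.pi) :
    Real.exp (-(c * S m θ)) ≤ Real.exp (-(c / 15 * (m : ℝ) ^ 3 * θ ^ 2))
      + Real.exp (-(c / 2 * m)) := by
  rcases S_lower m hm θ hθ with h | h
  · have : Real.exp (-(c * S m θ)) ≤ Real.exp (-(c / 15 * (m : ℝ) ^ 3 * θ ^ 2)) := by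
      apply Real.exp_le_exp.mpr
      have := mul_le_mul_of_nonneg_left h hc
      linarith
    linarith [Real.exp_pos (-(c / 2 * m))]
  · have : Real.exp (-(c * S m θ)) ≤ Real.exp (-(c / 2 * m)) := by
      apply Real.exp_le_exp.mpr
      have := mul_le_mul_of_nonneg_left h hc
      linarith
    linarith [Real.exp_pos (-(c / 15 * (m : ℝ) ^ 3 * θ ^ 2))]

lemma prod_diff {ι : Type*} [DecidableEq ι] (s : Finset ι) (a b : ι → ℂ) (c : ι → ℝ)
    (ha : ∀ i ∈ s, ‖a i‖ ≤ c i) (hb : ∀ i ∈ s, ‖b i‖ ≤ c i) :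
    ‖∏ i ∈ s, a i - ∏ i ∈ s, b i‖ ≤ ∑ i ∈ s, ‖a i - b i‖ * ∏ j ∈ s.erase i, c j := by
  induction s using Finset.induction_on with
  | empty => simp
  | insert x s hx ih =>
    have hc : ∀ i ∈ insert x s, 0 ≤ c i := fun i hi => (norm_nonneg _).trans (ha i hi)
    rw [Finset.prod_insert hx, Finset.prod_insert hx, Finset.sum_insert hx,
      Finset.erase_insert hx]
    have h1 : a x * ∏ i ∈ s, a i - b x * ∏ i ∈ s, b i
        = (a x - b x) * ∏ i ∈ s, a i + b x * (∏ i ∈ s, a i - ∏ i ∈ s, b i) := by ring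
    rw [h1]
    refine (norm_add_le _ _).trans (add_le_add ?_ ?_)
    · rw [norm_mul, norm_prod]
      apply mul_le_mul_of_nonneg_left _ (norm_nonneg _)
      exact Finset.prod_le_prod (fun i _ => norm_nonneg _)
        fun i hi => ha i (Finset.mem_insert_of_mem hi)
    · rw [norm_mul]
      have hih := ih (fun i hi => ha i (Finset.mem_insert_of_mem hi))
        (fun i hi => hb i (Finset.mem_insert_of_mem hi))
      calc ‖b x‖ * ‖∏ i ∈ s, a i - ∏ i ∈ s, b i‖
          ≤ c x * ∑ i ∈ s, ‖a i - b i‖ * ∏ j ∈ s.erase i, c j :=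
            mul_le_mul (hb x (Finset.mem_insert_self _ _)) hih (norm_nonneg _)
              (hc x (Finset.mem_insert_self _ _))
        _ = ∑ i ∈ s, ‖a i - b i‖ * ∏ j ∈ (insert x s).erase i, c j := by
            rw [Finset.mul_sum]
            refine Finset.sum_congr rfl fun i hi => ?_
            have hix : x ≠ i := by rintro rfl; exact hx hi
            rw [Finset.erase_insert_of_ne hix, Finset.prod_insert (by
              simp [Finset.mem_erase, hx])]
            ring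

/-- the tilting parameter of the `i`-th factor -/
noncomputable def qq (s : ℝ) (i : ℕ) : ℝ := Real.exp (-(s * i))

lemma qq_pos (s : ℝ) (i : ℕ) : 0 < qq s i := Real.exp_pos _

lemma qq_le_one {s : ℝ} (hs : 0 ≤ s) (i : ℕ) : qq s i ≤ 1 := by
  unfold qq
  rw [Real.exp_le_one_iff]
  have : 0 ≤ s * i := by positivity
  linarith

/-- the admissible relation between the parameters `n`, `s` and the effective size `m` -/
structure Adm (n : ℕ) (s : ℝ) (m : ℕ) : Prop where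
  one_le : 1 ≤ m
  le_n : m ≤ n
  s_nonneg : 0 ≤ s
  s_le : s * m ≤ 1
  alt : m = n ∨ 1 ≤ s * (m + 1)

/-- the constant in the moment sums -/
noncomputable def KK (p : ℕ) : ℝ := 1 + (p + 2).factorial * 2 ^ (p + 2)

lemma KK_pos (p : ℕ) : 0 < KK p := by unfold KK; positivity

lemma qq_ge {n : ℕ} {s : ℝ} {m : ℕ} (h : Adm n s m) (i : ℕ) (hi : i ≤ m) : 1 / 3 ≤ qq s i := by
  unfold qq
  have h1 : s * i ≤ 1 := by
    have : (i : ℝ) ≤ m := by exact_mod_cast hi
    exact (mul_le_mul_of_nonneg_left this h.s_nonneg).trans h.s_le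
  have h2 : Real.exp (-1) ≤ Real.exp (-(s * i)) := Real.exp_le_exp.mpr (by linarith)
  refine le_trans ?_ h2
  rw [Real.exp_neg, one_div]
  apply inv_anti₀ (Real.exp_pos 1)
  linarith [Real.exp_one_lt_d9]

lemma moment_sum {n : ℕ} {s : ℝ} {m : ℕ} (h : Adm n s m) (p : ℕ) :
    ∑ i ∈ Icc 1 n, (i : ℝ) ^ p * qq s i ≤ KK p * (m : ℝ) ^ (p + 1) := by
  have hm : (1 : ℝ) ≤ m := by exact_mod_cast h.one_le
  have hsplit : ∑ i ∈ Icc 1 n, (i : ℝ) ^ p * qq s i
      = ∑ i ∈ Icc 1 m, (i : ℝ) ^ p * qq s i + ∑ i ∈ Ioc m n, (i : ℝ) ^ p * qq s i := by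
    have hd : Disjoint (Icc 1 m) (Ioc m n) := by
      rw [Finset.disjoint_left]
      intro x hx hx2
      rw [Finset.mem_Icc] at hx
      rw [Finset.mem_Ioc] at hx2
      omega
    rw [← Finset.sum_union hd]
    congr 1
    ext x
    have := h.le_n
    have := h.one_le
    simp only [Finset.mem_Icc, Finset.mem_union, Finset.mem_Ioc]
    omega
  rw [hsplit]
  have h1 : ∑ i ∈ Icc 1 m, (i : ℝ) ^ p * qq s i ≤ (m : ℝ) ^ (p + 1) := by
    calc ∑ i ∈ Icc 1 m, (i : ℝ) ^ p * qq s i ≤ ∑ i ∈ Icc 1 m, (m : ℝ) ^ p := by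
          refine Finset.sum_le_sum fun i hi => ?_
          rw [Finset.mem_Icc] at hi
          have hi' : (i : ℝ) ≤ m := by exact_mod_cast hi.2
          calc (i : ℝ) ^ p * qq s i ≤ (m : ℝ) ^ p * 1 := by
                apply mul_le_mul _ (qq_le_one h.s_nonneg i) (qq_pos s i).le (by positivity)
                exact pow_le_pow_left₀ (Nat.cast_nonneg i) hi' p
            _ = _ := mul_one _
      _ = (m : ℝ) ^ (p + 1) := by simp; ring
  have h2 : ∑ i ∈ Ioc m n, (i : ℝ) ^ p * qq s i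
      ≤ ((p + 2).factorial * 2 ^ (p + 2)) * (m : ℝ) ^ (p + 1) := by
    rcases h.alt with hmn | hs1
    · rw [hmn]; simp; positivity
    · have hs2 : 1 / (2 * (m : ℝ)) ≤ s := by
        rw [div_le_iff₀ (by positivity)]
        have : s * (m + 1) ≤ s * (2 * m) := mul_le_mul_of_nonneg_left (by linarith) h.s_nonneg
        linarith
      have h3 : ∀ i ∈ Ioc m n, (i : ℝ) ^ p * qq s i
          ≤ ((p + 2).factorial * (2 * m) ^ (p + 2)) * ((i : ℝ) ^ 2)⁻¹ := by
        intro i hi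
        rw [Finset.mem_Ioc] at hi
        have hi0 : (0 : ℝ) < i := by exact_mod_cast (by omega : 0 < i)
        have hx : (0 : ℝ) ≤ i / (2 * m) := by positivity
        have h4 := Real.pow_div_factorial_le_exp (x := i / (2 * m)) hx (p + 2)
        have h5 : Real.exp (i / (2 * m)) ≤ Real.exp (s * i) := by
          apply Real.exp_le_exp.mpr
          calc (i : ℝ) / (2 * m) = 1 / (2 * m) * i := by ring
            _ ≤ s * i := mul_le_mul_of_nonneg_right hs2 hi0.le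
        have h6 := h4.trans h5
        unfold qq
        rw [Real.exp_neg]
        have hfac : (0 : ℝ) < (p + 2).factorial := by exact_mod_cast Nat.factorial_pos _
        have h7 : (i : ℝ) ^ p * i ^ 2 ≤ ((p + 2).factorial * (2 * m) ^ (p + 2)) * Real.exp (s * i) := by
          rw [div_pow, div_div, div_le_iff₀ (by positivity)] at h6
          calc (i : ℝ) ^ p * i ^ 2 = (i : ℝ) ^ (p + 2) := by ring
            _ ≤ _ := h6
            _ = _ := by ring
        rw [← div_eq_mul_inv, ← div_eq_mul_inv, div_le_div_iff₀ (Real.exp_pos _) (by positivity)]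
        exact h7
      calc ∑ i ∈ Ioc m n, (i : ℝ) ^ p * qq s i
          ≤ ∑ i ∈ Ioc m n, ((p + 2).factorial * (2 * m) ^ (p + 2)) * ((i : ℝ) ^ 2)⁻¹ :=
            Finset.sum_le_sum h3
        _ = ((p + 2).factorial * (2 * m) ^ (p + 2)) * ∑ i ∈ Ioc m n, ((i : ℝ) ^ 2)⁻¹ := by
            rw [Finset.mul_sum]
        _ ≤ ((p + 2).factorial * (2 * m) ^ (p + 2)) * (m : ℝ)⁻¹ := by
            apply mul_le_mul_of_nonneg_left _ (by positivity)
            have := sum_Ioc_inv_sq_le_sub (α := ℝ) (k := m) (n := n)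
              (by have := h.one_le; omega) h.le_n
            have hn : (0 : ℝ) ≤ (n : ℝ)⁻¹ := by positivity
            linarith
        _ = ((p + 2).factorial * 2 ^ (p + 2)) * (m : ℝ) ^ (p + 1) := by
            rw [mul_pow]; field_simp; ring
  unfold KK
  rw [add_mul, one_mul]
  exact add_le_add h1 h2

/-- the product of the centred characteristic functions -/
noncomputable def psi (d n : ℕ) (s θ : ℝ) : ℂ := ∏ i ∈ Icc 1 n, phi d (qq s i) (i * θ)

/-- the total variance -/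
noncomputable def sig2 (d n : ℕ) (s : ℝ) : ℝ := ∑ i ∈ Icc 1 n, (i : ℝ) ^ 2 * V d (qq s i)

/-- the Gaussian comparison function -/
noncomputable def G (d n : ℕ) (s θ : ℝ) : ℝ := Real.exp (-(sig2 d n s * θ ^ 2 / 2))

lemma G_eq (d n : ℕ) (s θ : ℝ) :
    (G d n s θ : ℂ) = ∏ i ∈ Icc 1 n, ((Real.exp (-(V d (qq s i) * (i * θ) ^ 2 / 2)) : ℝ) : ℂ) := by
  rw [← Complex.ofReal_prod]
  congr 1
  rw [← Real.exp_sum]
  unfold G sig2
  congr 1
  rw [Finset.sum_mul, Finset.sum_div, ← Finset.sum_neg_distrib]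
  refine Finset.sum_congr rfl fun i _ => ?_
  ring

lemma V_ge' {d n : ℕ} {s : ℝ} {m : ℕ} (hd : 2 ≤ d) (h : Adm n s m) (i : ℕ) (hi : i ≤ m) :
    1 / (3 * (d : ℝ) ^ 2) ≤ w d (qq s i) 0 * w d (qq s i) 1 := by
  have h1 := w01 hd (qq_pos s i).le (qq_le_one h.s_nonneg i)
  refine le_trans ?_ h1
  have h2 := qq_ge h i hi
  have hd0 : (0 : ℝ) < d := by exact_mod_cast (by omega : 0 < d)
  calc 1 / (3 * (d : ℝ) ^ 2) = (1 / 3) / (d : ℝ) ^ 2 := by field_simp
    _ ≤ _ := div_le_div_of_nonneg_right h2 (by positivity)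

lemma sig2_ge {d n : ℕ} {s : ℝ} {m : ℕ} (hd : 2 ≤ d) (h : Adm n s m) :
    1 / (9 * (d : ℝ) ^ 2) * (m : ℝ) ^ 3 ≤ sig2 d n s := by
  have h1 : ∑ i ∈ Icc 1 m, (i : ℝ) ^ 2 * V d (qq s i) ≤ sig2 d n s := by
    unfold sig2
    apply Finset.sum_le_sum_of_subset_of_nonneg
    · exact Finset.Icc_subset_Icc_right h.le_n
    · intro i _ _
      exact mul_nonneg (by positivity) (V_nonneg (by omega) (qq_pos s i).le)
  refine le_trans ?_ h1
  have h2 : ∑ i ∈ Icc 1 m, (i : ℝ) ^ 2 * (1 / (3 * (d : ℝ) ^ 2))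
      ≤ ∑ i ∈ Icc 1 m, (i : ℝ) ^ 2 * V d (qq s i) := by
    refine Finset.sum_le_sum fun i hi => ?_
    rw [Finset.mem_Icc] at hi
    apply mul_le_mul_of_nonneg_left _ (by positivity)
    exact (V_ge' hd h i hi.2).trans (V_ge hd (qq_pos s i).le)
  refine le_trans ?_ h2
  rw [← Finset.sum_mul]
  have h3 := sum_sq_ge m
  have hd0 : (0 : ℝ) < d := by exact_mod_cast (by omega : 0 < d)
  calc 1 / (9 * (d : ℝ) ^ 2) * (m : ℝ) ^ 3 = (m : ℝ) ^ 3 / 3 * (1 / (3 * (d : ℝ) ^ 2)) := by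
        field_simp; ring
    _ ≤ _ := mul_le_mul_of_nonneg_right h3 (by positivity)

lemma sig2_le {d n : ℕ} {s : ℝ} {m : ℕ} (hd : 1 ≤ d) (h : Adm n s m) :
    sig2 d n s ≤ d ^ 3 * KK 2 * (m : ℝ) ^ 3 := by
  unfold sig2
  calc ∑ i ∈ Icc 1 n, (i : ℝ) ^ 2 * V d (qq s i)
      ≤ ∑ i ∈ Icc 1 n, (d : ℝ) ^ 3 * ((i : ℝ) ^ 2 * qq s i) := by
        refine Finset.sum_le_sum fun i _ => ?_
        calc (i : ℝ) ^ 2 * V d (qq s i) ≤ (i : ℝ) ^ 2 * (d ^ 3 * qq s i) :=
              mul_le_mul_of_nonneg_left (V_le hd (qq_pos s i).le (qq_le_one h.s_nonneg i))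
                (by positivity)
          _ = _ := by ring
    _ = d ^ 3 * ∑ i ∈ Icc 1 n, (i : ℝ) ^ 2 * qq s i := by rw [Finset.mul_sum]
    _ ≤ d ^ 3 * (KK 2 * (m : ℝ) ^ (2 + 1)) :=
        mul_le_mul_of_nonneg_left (moment_sum h 2) (by positivity)
    _ = _ := by ring

/-- The main comparison between the characteristic function and the Gaussian. -/
theorem psi_sub_G {d n : ℕ} {s : ℝ} {m : ℕ} (hd : 2 ≤ d) (h : Adm n s m) (θ : ℝ)
    (hθ : |θ| ≤ Real.pi) :
    ‖psi d n s θ - (G d n s θ : ℂ)‖ ≤ 15 * d ^ 5 * KK 3 * (m : ℝ) ^ 4 * |θ| ^ 3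
      * (Real.exp (-(1 / (45 * (d : ℝ) ^ 2) * (m : ℝ) ^ 3 * θ ^ 2))
        + Real.exp (-(1 / (6 * (d : ℝ) ^ 2) * m))) := by
  classical
  have hd1 : 1 ≤ d := by omega
  have hd0 : (0 : ℝ) < d := by exact_mod_cast (by omega : 0 < d)
  have hd2 : (2 : ℝ) ≤ d := by exact_mod_cast hd
  set c1 : ℝ := 1 / (3 * (d : ℝ) ^ 2) with hc1
  have hc1pos : 0 < c1 := by positivity
  have hc1le : c1 ≤ 1 / 2 := by
    rw [hc1, div_le_div_iff₀ (by positivity) (by norm_num)]
    nlinarith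
  set c : ℕ → ℝ := fun i => if i ≤ m then Real.exp (-(c1 * (1 - Real.cos (i * θ)))) else 1 with hc
  have hcpos : ∀ i, 0 < c i := by
    intro i; simp only [hc]; split_ifs
    · exact Real.exp_pos _
    · norm_num
  have hcge : ∀ i, Real.exp (-1) ≤ c i := by
    intro i; simp only [hc]; split_ifs
    · apply Real.exp_le_exp.mpr
      have := Real.neg_one_le_cos (i * θ)
      nlinarith
    · exact Real.exp_le_one_iff.mpr (by norm_num)
  have ha : ∀ i ∈ Icc 1 n, ‖phi d (qq s i) (i * θ)‖ ≤ c i := by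
    intro i _
    by_cases him : i ≤ m
    · simp only [hc, him, if_true]
      refine (phi_norm_le hd (qq_pos s i).le _).trans ?_
      apply Real.exp_le_exp.mpr
      have h1 := V_ge' hd h i him
      have h2 : 0 ≤ 1 - Real.cos (i * θ) := by linarith [Real.cos_le_one (i * θ)]
      have := mul_le_mul_of_nonneg_right h1 h2
      linarith
    · simp only [hc, him, if_false]
      exact phi_norm_le_one hd1 (qq_pos s i).le _
  have hb : ∀ i ∈ Icc 1 n, ‖((Real.exp (-(V d (qq s i) * (i * θ) ^ 2 / 2)) : ℝ) : ℂ)‖ ≤ c i := by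
    intro i _
    rw [Complex.norm_real, Real.norm_eq_abs, abs_of_pos (Real.exp_pos _)]
    have hV := V_nonneg hd1 (qq_pos s i).le
    by_cases him : i ≤ m
    · simp only [hc, him, if_true]
      apply Real.exp_le_exp.mpr
      have h1 := (V_ge' hd h i him).trans (V_ge hd (qq_pos s i).le)
      have h2 : 1 - Real.cos (i * θ) ≤ (i * θ) ^ 2 / 2 := by
        linarith [Real.one_sub_sq_div_two_le_cos (x := i * θ)]
      have h3 : c1 * (1 - Real.cos (i * θ)) ≤ V d (qq s i) * ((i * θ) ^ 2 / 2) :=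
        mul_le_mul h1 h2 (by linarith [Real.cos_le_one (i * θ)]) hV
      linarith
    · simp only [hc, him, if_false]
      apply Real.exp_le_one_iff.mpr
      have : 0 ≤ V d (qq s i) * (i * θ) ^ 2 / 2 := by positivity
      linarith
  have hmain := prod_diff (Icc 1 n) (fun i => phi d (qq s i) (i * θ))
    (fun i => ((Real.exp (-(V d (qq s i) * (i * θ) ^ 2 / 2)) : ℝ) : ℂ)) c ha hb
  rw [← G_eq] at hmain
  have hprodc : ∏ i ∈ Icc 1 n, c i = Real.exp (-(c1 * S m θ)) := by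
    have h1 : ∏ i ∈ Icc 1 n, c i = ∏ i ∈ Icc 1 m, c i := by
      symm
      apply Finset.prod_subset (Finset.Icc_subset_Icc_right h.le_n)
      intro i hi hi2
      rw [Finset.mem_Icc] at hi hi2
      have : ¬ i ≤ m := by omega
      simp only [hc, this, if_false]
    rw [h1]
    unfold S
    rw [Finset.mul_sum, ← Finset.sum_neg_distrib, Real.exp_sum]
    refine Finset.prod_congr rfl fun i hi => ?_
    rw [Finset.mem_Icc] at hi
    simp only [hc, hi.2, if_true]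
  have herase : ∀ i ∈ Icc 1 n, ∏ j ∈ (Icc 1 n).erase i, c j ≤ 3 * Real.exp (-(c1 * S m θ)) := by
    intro i hi
    have h1 : c i * ∏ j ∈ (Icc 1 n).erase i, c j = Real.exp (-(c1 * S m θ)) := by
      rw [Finset.mul_prod_erase _ _ hi, hprodc]
    have h2 : 1 / 3 ≤ c i := by
      refine le_trans ?_ (hcge i)
      rw [Real.exp_neg, one_div]
      apply inv_anti₀ (Real.exp_pos 1)
      linarith [Real.exp_one_lt_d9]
    have h3 : 0 ≤ ∏ j ∈ (Icc 1 n).erase i, c j := Finset.prod_nonneg fun j _ => (hcpos j).le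
    nlinarith
  have hES : Real.exp (-(c1 * S m θ)) ≤ Real.exp (-(1 / (45 * (d : ℝ) ^ 2) * (m : ℝ) ^ 3 * θ ^ 2))
        + Real.exp (-(1 / (6 * (d : ℝ) ^ 2) * m)) := by
    have h1 := exp_S_le c1 hc1pos.le m h.one_le θ hθ
    have e1 : c1 / 15 = 1 / (45 * (d : ℝ) ^ 2) := by rw [hc1]; field_simp; ring
    have e2 : c1 / 2 = 1 / (6 * (d : ℝ) ^ 2) := by rw [hc1]; field_simp; ring
    rwa [e1, e2] at h1
  set E := Real.exp (-(c1 * S m θ)) with hE
  have hEpos : 0 < E := Real.exp_pos _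
  have hsum : ∑ i ∈ Icc 1 n, ‖phi d (qq s i) (i * θ)
        - ((Real.exp (-(V d (qq s i) * (i * θ) ^ 2 / 2)) : ℝ) : ℂ)‖
        * ∏ j ∈ (Icc 1 n).erase i, c j
      ≤ ∑ i ∈ Icc 1 n, (15 * (d : ℝ) ^ 5 * |θ| ^ 3 * E) * ((i : ℝ) ^ 3 * qq s i) := by
    refine Finset.sum_le_sum fun i hi => ?_
    have h1 := phi_gauss hd1 (qq_pos s i).le (qq_le_one h.s_nonneg i) (i * θ)
    have h2 := herase i hi
    have h3 : 0 ≤ ∏ j ∈ (Icc 1 n).erase i, c j := Finset.prod_nonneg fun j _ => (hcpos j).le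
    calc _ ≤ (5 * ((d : ℝ) ^ 5 * qq s i) * |(i : ℝ) * θ| ^ 3) * (3 * E) := by
          apply mul_le_mul h1 h2 h3
          have := (qq_pos s i).le
          positivity
      _ = _ := by
          rw [abs_mul, abs_of_nonneg (Nat.cast_nonneg (α := ℝ) i)]; ring
  have hms := moment_sum h 3
  calc ‖psi d n s θ - (G d n s θ : ℂ)‖ ≤ _ := hmain
    _ ≤ _ := hsum
    _ = (15 * (d : ℝ) ^ 5 * |θ| ^ 3 * E) * ∑ i ∈ Icc 1 n, ((i : ℝ) ^ 3 * qq s i) := by
        rw [Finset.mul_sum]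
    _ ≤ (15 * (d : ℝ) ^ 5 * |θ| ^ 3 * E) * (KK 3 * (m : ℝ) ^ (3 + 1)) :=
        mul_le_mul_of_nonneg_left hms (by positivity)
    _ = (15 * (d : ℝ) ^ 5 * KK 3 * (m : ℝ) ^ 4 * |θ| ^ 3) * E := by ring
    _ ≤ _ := by
        apply mul_le_mul_of_nonneg_left hES
        have := (KK_pos 3).le
        positivity

end Pool.Agent.Lib_MP_97158b_co
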