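import Mathlib

set_option autoImplicit false

open Finset

namespace Pool.Agent.Lib_MP_97158b_co

/-- normalising constant of the truncated geometric law -/
noncomputable def Z (d : ℕ) (q : ℝ) : ℝ := ∑ x ∈ range d, q ^ x
/-- weights of the truncated geometric law -/
noncomputable def w (d : ℕ) (q : ℝ) (x : ℕ) : ℝ := q ^ x / Z d q
/-- mean -/
noncomputable def mu (d : ℕ) (q : ℝ) : ℝ := ∑ x ∈ range d, (x : ℝ) * w d q x
/-- variance -/
noncomputable def V (d : ℕ) (q : ℝ) : ℝ := ∑ x ∈ range d, ((x : ℝ) - mu d q) ^ 2 * w d q x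
/-- third absolute central moment -/
noncomputable def T3 (d : ℕ) (q : ℝ) : ℝ := ∑ x ∈ range d, |(x : ℝ) - mu d q| ^ 3 * w d q x
/-- centred characteristic function -/
noncomputable def phi (d : ℕ) (q t : ℝ) : ℂ :=
  ∑ x ∈ range d, (w d q x : ℂ) * Complex.exp (((t * ((x : ℝ) - mu d q) : ℝ) : ℂ) * Complex.I)

section
variable {d : ℕ} {q : ℝ}

lemma Z_ge_one (hd : 1 ≤ d) (hq : 0 ≤ q) : 1 ≤ Z d q := by
  unfold Z
  have h := Finset.single_le_sum (f := fun x => q ^ x) (s := range d)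
    (fun x _ => pow_nonneg hq x) (Finset.mem_range.mpr (by omega : 0 < d))
  simpa using h

lemma Z_pos (hd : 1 ≤ d) (hq : 0 ≤ q) : 0 < Z d q := lt_of_lt_of_le one_pos (Z_ge_one hd hq)

lemma Z_le (hq : 0 ≤ q) (hq1 : q ≤ 1) : Z d q ≤ d := by
  unfold Z
  calc ∑ x ∈ range d, q ^ x ≤ ∑ x ∈ range d, (1 : ℝ) :=
        Finset.sum_le_sum fun x _ => pow_le_one₀ hq hq1
    _ = d := by simp

lemma w_nonneg (hd : 1 ≤ d) (hq : 0 ≤ q) (x : ℕ) : 0 ≤ w d q x :=
  div_nonneg (pow_nonneg hq x) (Z_pos hd hq).le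

lemma w_sum (hd : 1 ≤ d) (hq : 0 ≤ q) : ∑ x ∈ range d, w d q x = 1 := by
  unfold w
  rw [← Finset.sum_div]
  exact div_self (Z_pos hd hq).ne'

lemma w_le_one (hd : 1 ≤ d) (hq : 0 ≤ q) (hq1 : q ≤ 1) (x : ℕ) : w d q x ≤ 1 := by
  unfold w
  rw [div_le_one (Z_pos hd hq)]
  exact (pow_le_one₀ hq hq1).trans (Z_ge_one hd hq)

lemma w_le_q (hd : 1 ≤ d) (hq : 0 ≤ q) (hq1 : q ≤ 1) (x : ℕ) (hx : 1 ≤ x) : w d q x ≤ q := by
  unfold w
  have h1 : q ^ x ≤ q := by
    calc q ^ x ≤ q ^ 1 := pow_le_pow_of_le_one hq hq1 hx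
      _ = q := pow_one q
  calc q ^ x / Z d q ≤ q / Z d q := div_le_div_of_nonneg_right h1 (Z_pos hd hq).le
    _ ≤ q := div_le_self hq (Z_ge_one hd hq)

lemma mu_nonneg (hd : 1 ≤ d) (hq : 0 ≤ q) : 0 ≤ mu d q :=
  Finset.sum_nonneg fun x _ => mul_nonneg (Nat.cast_nonneg x) (w_nonneg hd hq x)

lemma mu_le_d (hd : 1 ≤ d) (hq : 0 ≤ q) : mu d q ≤ d := by
  unfold mu
  calc ∑ x ∈ range d, (x : ℝ) * w d q x ≤ ∑ x ∈ range d, (d : ℝ) * w d q x := by
        refine Finset.sum_le_sum fun x hx => ?_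
        apply mul_le_mul_of_nonneg_right _ (w_nonneg hd hq x)
        exact_mod_cast (Finset.mem_range.mp hx).le
    _ = d := by rw [← Finset.mul_sum, w_sum hd hq, mul_one]

lemma mu_le_q (hd : 1 ≤ d) (hq : 0 ≤ q) (hq1 : q ≤ 1) : mu d q ≤ d ^ 2 * q := by
  unfold mu
  calc ∑ x ∈ range d, (x : ℝ) * w d q x ≤ ∑ x ∈ range d, (d : ℝ) * q := by
        refine Finset.sum_le_sum fun x hx => ?_
        rcases Nat.eq_zero_or_pos x with h0 | h0
        · subst h0; simp; positivity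
        · apply mul_le_mul _ (w_le_q hd hq hq1 x h0) (w_nonneg hd hq x) (Nat.cast_nonneg d)
          exact_mod_cast (Finset.mem_range.mp hx).le
    _ = d ^ 2 * q := by simp; ring

lemma V_nonneg (hd : 1 ≤ d) (hq : 0 ≤ q) : 0 ≤ V d q :=
  Finset.sum_nonneg fun x _ => mul_nonneg (sq_nonneg _) (w_nonneg hd hq x)

lemma V_eq (hd : 1 ≤ d) (hq : 0 ≤ q) :
    V d q = (∑ x ∈ range d, (x : ℝ) ^ 2 * w d q x) - mu d q ^ 2 := by
  unfold V
  have h : ∀ x ∈ range d, ((x : ℝ) - mu d q) ^ 2 * w d q x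
      = (x : ℝ) ^ 2 * w d q x - 2 * mu d q * ((x : ℝ) * w d q x) + mu d q ^ 2 * w d q x := by
    intro x _; ring
  rw [Finset.sum_congr rfl h, Finset.sum_add_distrib, Finset.sum_sub_distrib, ← Finset.mul_sum,
    ← Finset.mul_sum, w_sum hd hq]
  have : ∑ x ∈ range d, (x : ℝ) * w d q x = mu d q := rfl
  rw [this]; ring

lemma V_le (hd : 1 ≤ d) (hq : 0 ≤ q) (hq1 : q ≤ 1) : V d q ≤ d ^ 3 * q := by
  rw [V_eq hd hq]
  have h1 : ∑ x ∈ range d, (x : ℝ) ^ 2 * w d q x ≤ ∑ x ∈ range d, (d : ℝ) ^ 2 * q := by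
    refine Finset.sum_le_sum fun x hx => ?_
    rcases Nat.eq_zero_or_pos x with h0 | h0
    · subst h0; simp; positivity
    · apply mul_le_mul _ (w_le_q hd hq hq1 x h0) (w_nonneg hd hq x) (by positivity)
      have : (x : ℝ) ≤ d := by exact_mod_cast (Finset.mem_range.mp hx).le
      gcongr
  have h2 : ∑ x ∈ range d, (d : ℝ) ^ 2 * q = d ^ 3 * q := by simp; ring
  nlinarith [sq_nonneg (mu d q)]

lemma w01 (hd : 2 ≤ d) (hq : 0 ≤ q) (hq1 : q ≤ 1) : q / d ^ 2 ≤ w d q 0 * w d q 1 := by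
  have hZ := Z_pos (d := d) (by omega) hq
  have h1 : w d q 0 * w d q 1 = q / Z d q ^ 2 := by
    unfold w; rw [pow_zero, pow_one]; field_simp
  rw [h1]
  apply div_le_div_of_nonneg_left hq (by positivity)
  exact pow_le_pow_left₀ hZ.le (Z_le hq hq1) 2

lemma V_ge (hd : 2 ≤ d) (hq : 0 ≤ q) : w d q 0 * w d q 1 ≤ V d q := by
  have hd1 : 1 ≤ d := by omega
  have hsub : ({0, 1} : Finset ℕ) ⊆ range d := by
    intro x hx
    simp only [Finset.mem_insert, Finset.mem_singleton] at hx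
    rw [Finset.mem_range]; omega
  have h1 : ∑ x ∈ ({0, 1} : Finset ℕ), ((x : ℝ) - mu d q) ^ 2 * w d q x ≤ V d q := by
    unfold V
    exact Finset.sum_le_sum_of_subset_of_nonneg hsub
      fun x _ _ => mul_nonneg (sq_nonneg _) (w_nonneg hd1 hq x)
  rw [Finset.sum_pair (by norm_num)] at h1
  have h01 : w d q 0 + w d q 1 ≤ 1 := by
    rw [← w_sum hd1 hq, ← Finset.sum_pair (f := fun x => w d q x) (by norm_num : (0 : ℕ) ≠ 1)]
    exact Finset.sum_le_sum_of_subset_of_nonneg hsub fun x _ _ => w_nonneg hd1 hq x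
  have hw0 := w_nonneg hd1 hq 0
  have hw1 := w_nonneg hd1 hq 1
  push_cast at h1
  set a := w d q 0
  set b := w d q 1
  set m := mu d q
  refine le_trans ?_ h1
  by_cases hab : a + b = 0
  · have ha : a = 0 := by linarith
    rw [ha]; nlinarith [mul_nonneg (sq_nonneg (1 - m)) hw1]
  · have habpos : 0 < a + b := lt_of_le_of_ne (by linarith) (Ne.symm hab)
    have h3 : a * b ≤ ((0 - m) ^ 2 * a + (1 - m) ^ 2 * b) * (a + b) := by
      nlinarith [sq_nonneg (m * a - (1 - m) * b)]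
    have h4 : 0 ≤ (0 - m) ^ 2 * a + (1 - m) ^ 2 * b := by positivity
    nlinarith

lemma T3_le (hd : 1 ≤ d) (hq : 0 ≤ q) (hq1 : q ≤ 1) : T3 d q ≤ d ^ 5 * q := by
  unfold T3
  have hd1 : (1 : ℝ) ≤ d := by exact_mod_cast hd
  have hm0 := mu_nonneg hd hq
  have hm1 := mu_le_d hd hq
  have hm2 := mu_le_q hd hq hq1
  calc ∑ x ∈ range d, |(x : ℝ) - mu d q| ^ 3 * w d q x ≤ ∑ x ∈ range d, (d : ℝ) ^ 4 * q := by
        refine Finset.sum_le_sum fun x hx => ?_
        have hxd : (x : ℝ) ≤ d := by exact_mod_cast (Finset.mem_range.mp hx).le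
        have hx0 : (0 : ℝ) ≤ x := Nat.cast_nonneg x
        rcases Nat.eq_zero_or_pos x with h0 | h0
        · subst h0
          have h1 : |((0 : ℕ) : ℝ) - mu d q| = mu d q := by
            rw [Nat.cast_zero, zero_sub, abs_neg, abs_of_nonneg hm0]
          rw [h1]
          calc mu d q ^ 3 * w d q 0 ≤ mu d q ^ 3 * 1 :=
                mul_le_mul_of_nonneg_left (w_le_one hd hq hq1 0) (by positivity)
            _ = mu d q ^ 2 * mu d q := by ring
            _ ≤ (d : ℝ) ^ 2 * (d ^ 2 * q) := by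
                apply mul_le_mul _ hm2 hm0 (by positivity)
                exact pow_le_pow_left₀ hm0 hm1 2
            _ = (d : ℝ) ^ 4 * q := by ring
        · have h1 : |(x : ℝ) - mu d q| ≤ d := by
            rw [abs_le]; constructor <;> linarith
          calc |(x : ℝ) - mu d q| ^ 3 * w d q x ≤ (d : ℝ) ^ 3 * q := by
                apply mul_le_mul _ (w_le_q hd hq hq1 x h0) (w_nonneg hd hq x) (by positivity)
                exact pow_le_pow_left₀ (abs_nonneg _) h1 3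
            _ ≤ (d : ℝ) ^ 4 * q := by
                apply mul_le_mul_of_nonneg_right _ hq
                exact pow_le_pow_right₀ hd1 (by norm_num)
    _ = d ^ 5 * q := by simp; ring

lemma cexp_taylor (y : ℝ) :
    ‖Complex.exp ((y : ℂ) * Complex.I) - (1 + (y : ℂ) * Complex.I - (y : ℂ) ^ 2 / 2)‖
      ≤ 4 * |y| ^ 3 := by
  by_cases hy : |y| ≤ 1
  · have hn : ‖(y : ℂ) * Complex.I‖ = |y| := by simp
    have h := Complex.exp_bound (x := (y : ℂ) * Complex.I) (by rw [hn]; exact hy)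
      (n := 3) (by norm_num)
    rw [hn] at h
    have h2 : ∑ m ∈ range 3, ((y : ℂ) * Complex.I) ^ m / (m.factorial : ℂ)
        = 1 + (y : ℂ) * Complex.I - (y : ℂ) ^ 2 / 2 := by
      simp only [Finset.sum_range_succ, Finset.sum_range_zero]
      have : Complex.I ^ 2 = -1 := Complex.I_sq
      simp only [Nat.factorial, mul_pow]
      rw [this]
      push_cast; ring
    rw [h2] at h
    refine h.trans ?_
    have : (0 : ℝ) ≤ |y| ^ 3 := by positivity
    norm_num [Nat.factorial]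
    nlinarith
  · push Not at hy
    have h1 : ‖Complex.exp ((y : ℂ) * Complex.I)‖ = 1 := Complex.norm_exp_ofReal_mul_I y
    have h2 : ‖(1 + (y : ℂ) * Complex.I - (y : ℂ) ^ 2 / 2)‖ ≤ 1 + |y| + |y| ^ 2 / 2 := by
      refine (norm_sub_le _ _).trans ?_
      have h3 : ‖(1 + (y : ℂ) * Complex.I)‖ ≤ 1 + |y| := by
        refine (norm_add_le _ _).trans ?_
        simp
      have h4 : ‖(y : ℂ) ^ 2 / 2‖ = |y| ^ 2 / 2 := by
        rw [norm_div, norm_pow]; simp
      rw [h4]; linarith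
    refine (norm_sub_le _ _).trans ?_
    rw [h1]
    have hy2 : |y| ≤ |y| ^ 2 := by nlinarith
    have hy3 : |y| ^ 2 ≤ |y| ^ 3 := by
      have : |y| ^ 3 = |y| ^ 2 * |y| := by ring
      rw [this]; nlinarith [sq_nonneg |y|]
    linarith

lemma real_exp_taylor (y : ℝ) (hy : 0 ≤ y) :
    |Real.exp (-(y ^ 2 / 2)) - (1 - y ^ 2 / 2)| ≤ y ^ 3 := by
  have h1 : 1 - y ^ 2 / 2 ≤ Real.exp (-(y ^ 2 / 2)) := by
    have := Real.add_one_le_exp (-(y ^ 2 / 2)); linarith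
  rw [abs_of_nonneg (by linarith)]
  by_cases hy1 : y ≤ 1
  · -- use exp(-x) ≤ 1 - x + x^2/2
    have h2 : Real.exp (-(y ^ 2 / 2)) ≤ 1 - y ^ 2 / 2 + (y ^ 2 / 2) ^ 2 := by
      have hx : ‖-(y ^ 2 / 2)‖ ≤ 1 := by
        rw [Real.norm_eq_abs, abs_neg, abs_of_nonneg (by positivity)]; nlinarith
      have h3 := Real.norm_exp_sub_one_sub_id_le hx
      rw [Real.norm_eq_abs, Real.norm_eq_abs, sq_abs] at h3
      have h4 := le_abs_self (Real.exp (-(y ^ 2 / 2)) - 1 - -(y ^ 2 / 2))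
      nlinarith
    have h5 : y ^ 4 ≤ y ^ 3 := by
      have : y ^ 4 = y ^ 3 * y := by ring
      rw [this]; nlinarith [pow_nonneg hy 3]
    nlinarith
  · push Not at hy1
    have h2 : Real.exp (-(y ^ 2 / 2)) ≤ 1 := Real.exp_le_one_iff.mpr (by nlinarith [sq_nonneg y])
    have h3 : y ^ 2 ≤ y ^ 3 := by
      have : y ^ 3 = y ^ 2 * y := by ring
      rw [this]; nlinarith [sq_nonneg y]
    nlinarith

lemma phi_taylor (hd : 1 ≤ d) (hq : 0 ≤ q) (hq1 : q ≤ 1) (t : ℝ) :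
    ‖phi d q t - ((1 - V d q * t ^ 2 / 2 : ℝ) : ℂ)‖ ≤ 4 * (d ^ 5 * q) * |t| ^ 3 := by
  have hkey : phi d q t - ((1 - V d q * t ^ 2 / 2 : ℝ) : ℂ)
      = ∑ x ∈ range d, (w d q x : ℂ) *
        (Complex.exp (((t * ((x : ℝ) - mu d q) : ℝ) : ℂ) * Complex.I)
          - (1 + ((t * ((x : ℝ) - mu d q) : ℝ) : ℂ) * Complex.I
            - ((t * ((x : ℝ) - mu d q) : ℝ) : ℂ) ^ 2 / 2)) := by
    rw [Finset.sum_congr rfl (fun x _ => mul_sub _ _ _), Finset.sum_sub_distrib]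
    unfold phi
    congr 1
    have hs1 : (∑ x ∈ range d, (w d q x : ℂ)) = 1 := by
      exact_mod_cast congrArg (fun r : ℝ => (r : ℂ)) (w_sum hd hq)
    have hs2 : (∑ x ∈ range d, (w d q x : ℂ) * ((t * ((x : ℝ) - mu d q) : ℝ) : ℂ)) = 0 := by
      have : (∑ x ∈ range d, w d q x * (t * ((x : ℝ) - mu d q))) = 0 := by
        have h : ∀ x ∈ range d, w d q x * (t * ((x : ℝ) - mu d q))
            = t * ((x : ℝ) * w d q x) - t * mu d q * w d q x := by intro x _; ring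
        rw [Finset.sum_congr rfl h, Finset.sum_sub_distrib, ← Finset.mul_sum, ← Finset.mul_sum,
          w_sum hd hq]
        have : ∑ x ∈ range d, (x : ℝ) * w d q x = mu d q := rfl
        rw [this]; ring
      exact_mod_cast congrArg (fun r : ℝ => (r : ℂ)) this
    have hs3 : (∑ x ∈ range d, (w d q x : ℂ) * (((t * ((x : ℝ) - mu d q) : ℝ) : ℂ) ^ 2 / 2))
        = ((V d q * t ^ 2 / 2 : ℝ) : ℂ) := by
      have : (∑ x ∈ range d, w d q x * ((t * ((x : ℝ) - mu d q)) ^ 2 / 2)) = V d q * t ^ 2 / 2 := by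
        unfold V
        rw [Finset.sum_mul, Finset.sum_div]
        refine Finset.sum_congr rfl fun x _ => ?_
        ring
      exact_mod_cast congrArg (fun r : ℝ => (r : ℂ)) this
    have e2 : ∀ x ∈ range d, (w d q x : ℂ) * (1 + ((t * ((x : ℝ) - mu d q) : ℝ) : ℂ) * Complex.I
            - ((t * ((x : ℝ) - mu d q) : ℝ) : ℂ) ^ 2 / 2)
        = (w d q x : ℂ) + (w d q x : ℂ) * ((t * ((x : ℝ) - mu d q) : ℝ) : ℂ) * Complex.I
          - (w d q x : ℂ) * (((t * ((x : ℝ) - mu d q) : ℝ) : ℂ) ^ 2 / 2) := by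
      intro x _; ring
    rw [Finset.sum_congr rfl e2, Finset.sum_sub_distrib, Finset.sum_add_distrib, ← Finset.sum_mul,
      hs1, hs2, hs3]
    push_cast; ring
  rw [hkey]
  refine (norm_sum_le _ _).trans ?_
  calc ∑ x ∈ range d, ‖(w d q x : ℂ) *
        (Complex.exp (((t * ((x : ℝ) - mu d q) : ℝ) : ℂ) * Complex.I)
          - (1 + ((t * ((x : ℝ) - mu d q) : ℝ) : ℂ) * Complex.I
            - ((t * ((x : ℝ) - mu d q) : ℝ) : ℂ) ^ 2 / 2))‖
      ≤ ∑ x ∈ range d, 4 * |t| ^ 3 * (|(x : ℝ) - mu d q| ^ 3 * w d q x) := by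
        refine Finset.sum_le_sum fun x _ => ?_
        rw [norm_mul]
        have h1 : ‖(w d q x : ℂ)‖ = w d q x := by
          rw [Complex.norm_real, Real.norm_eq_abs, abs_of_nonneg (w_nonneg hd hq x)]
        rw [h1]
        have h2 := cexp_taylor (t * ((x : ℝ) - mu d q))
        calc _ ≤ w d q x * (4 * |t * ((x : ℝ) - mu d q)| ^ 3) :=
              mul_le_mul_of_nonneg_left h2 (w_nonneg hd hq x)
          _ = _ := by rw [abs_mul]; ring
    _ = 4 * |t| ^ 3 * T3 d q := by rw [← Finset.mul_sum]; rfl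
    _ ≤ 4 * |t| ^ 3 * (d ^ 5 * q) := mul_le_mul_of_nonneg_left (T3_le hd hq hq1) (by positivity)
    _ = _ := by ring

lemma phi_gauss (hd : 1 ≤ d) (hq : 0 ≤ q) (hq1 : q ≤ 1) (t : ℝ) :
    ‖phi d q t - ((Real.exp (-(V d q * t ^ 2 / 2)) : ℝ) : ℂ)‖ ≤ 5 * (d ^ 5 * q) * |t| ^ 3 := by
  have h1 := phi_taylor hd hq hq1 t
  have hV := V_nonneg hd hq
  have hVle := V_le hd hq hq1
  have hd1 : (1 : ℝ) ≤ d := by exact_mod_cast hd
  have h2 : ‖((1 - V d q * t ^ 2 / 2 : ℝ) : ℂ) - ((Real.exp (-(V d q * t ^ 2 / 2)) : ℝ) : ℂ)‖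
      ≤ (d ^ 5 * q) * |t| ^ 3 := by
    rw [← Complex.ofReal_sub, Complex.norm_real, Real.norm_eq_abs, abs_sub_comm]
    have h3 := real_exp_taylor (Real.sqrt (V d q) * |t|) (by positivity)
    have h4 : (Real.sqrt (V d q) * |t|) ^ 2 = V d q * t ^ 2 := by
      rw [mul_pow, Real.sq_sqrt hV, sq_abs]
    rw [h4] at h3
    refine h3.trans ?_
    have h5 : (Real.sqrt (V d q) * |t|) ^ 3 = V d q * Real.sqrt (V d q) * |t| ^ 3 := by
      have : (Real.sqrt (V d q)) ^ 3 = (Real.sqrt (V d q)) ^ 2 * Real.sqrt (V d q) := by ring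
      rw [mul_pow, this, Real.sq_sqrt hV]
    rw [h5]
    apply mul_le_mul_of_nonneg_right _ (by positivity)
    have h6 : Real.sqrt (V d q) ≤ d ^ 2 := by
      rw [Real.sqrt_le_left (by positivity)]
      calc V d q ≤ d ^ 3 * q := hVle
        _ ≤ d ^ 3 * 1 := mul_le_mul_of_nonneg_left hq1 (by positivity)
        _ = d ^ 3 := mul_one _
        _ ≤ d ^ 4 := pow_le_pow_right₀ hd1 (by norm_num)
        _ = (d ^ 2) ^ 2 := by ring
    calc V d q * Real.sqrt (V d q) ≤ (d ^ 3 * q) * d ^ 2 :=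
          mul_le_mul hVle h6 (Real.sqrt_nonneg _) (by positivity)
      _ = d ^ 5 * q := by ring
  calc ‖phi d q t - ((Real.exp (-(V d q * t ^ 2 / 2)) : ℝ) : ℂ)‖
      ≤ ‖phi d q t - ((1 - V d q * t ^ 2 / 2 : ℝ) : ℂ)‖
        + ‖((1 - V d q * t ^ 2 / 2 : ℝ) : ℂ) - ((Real.exp (-(V d q * t ^ 2 / 2)) : ℝ) : ℂ)‖ :=
        norm_sub_le_norm_sub_add_norm_sub _ _ _
    _ ≤ _ := by linarith

lemma phi_norm_le_one (hd : 1 ≤ d) (hq : 0 ≤ q) (t : ℝ) : ‖phi d q t‖ ≤ 1 := by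
  unfold phi
  refine (norm_sum_le _ _).trans ?_
  rw [← w_sum hd hq]
  refine Finset.sum_le_sum fun x _ => ?_
  rw [norm_mul, Complex.norm_exp_ofReal_mul_I, mul_one, Complex.norm_real, Real.norm_eq_abs,
    abs_of_nonneg (w_nonneg hd hq x)]

lemma phi_norm_le (hd : 2 ≤ d) (hq : 0 ≤ q) (t : ℝ) :
    ‖phi d q t‖ ≤ Real.exp (-(w d q 0 * w d q 1 * (1 - Real.cos t))) := by
  have hd1 : 1 ≤ d := by omega
  set a := w d q 0 with ha
  set b := w d q 1 with hb
  have ha0 : 0 ≤ a := w_nonneg hd1 hq 0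
  have hb0 : 0 ≤ b := w_nonneg hd1 hq 1
  obtain ⟨e, rfl⟩ : ∃ e, d = e + 2 := ⟨d - 2, by omega⟩
  have hsum : a + b + ∑ x ∈ range e, w (e + 2) q (x + 2) = 1 := by
    have := w_sum (d := e + 2) hd1 hq
    rw [Finset.sum_range_succ' , Finset.sum_range_succ'] at this
    rw [← this]; ring
  have h1 : ‖phi (e + 2) q t‖ ≤ ‖(a : ℂ) + b * Complex.exp ((t : ℂ) * Complex.I)‖
      + ∑ x ∈ range e, w (e + 2) q (x + 2) := by
    unfold phi
    rw [Finset.sum_range_succ', Finset.sum_range_succ']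
    have h2 : ‖∑ x ∈ range e, (w (e + 2) q (x + 1 + 1) : ℂ) *
        Complex.exp (((t * (((x + 1 + 1 : ℕ) : ℝ) - mu (e + 2) q) : ℝ) : ℂ) * Complex.I)‖
        ≤ ∑ x ∈ range e, w (e + 2) q (x + 2) := by
      refine (norm_sum_le _ _).trans (Finset.sum_le_sum fun x _ => ?_)
      rw [norm_mul, Complex.norm_exp_ofReal_mul_I, mul_one, Complex.norm_real, Real.norm_eq_abs,
        abs_of_nonneg (w_nonneg hd1 hq _)]
    have h3 : (w (e + 2) q (0 + 1) : ℂ) *
          Complex.exp (((t * (((0 + 1 : ℕ) : ℝ) - mu (e + 2) q) : ℝ) : ℂ) * Complex.I)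
        + (w (e + 2) q 0 : ℂ) *
          Complex.exp (((t * (((0 : ℕ) : ℝ) - mu (e + 2) q) : ℝ) : ℂ) * Complex.I)
        = ((a : ℂ) + b * Complex.exp ((t : ℂ) * Complex.I))
          * Complex.exp (((-(t * mu (e + 2) q) : ℝ) : ℂ) * Complex.I) := by
      rw [add_mul, mul_assoc, ← Complex.exp_add, zero_add, ← hb, ← ha, add_comm]
      congr 2
      · congr 1; push_cast; ring
      · congr 1; push_cast; ring
    rw [add_assoc, h3, add_comm]
    refine (norm_add_le _ _).trans ?_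
    rw [norm_mul, Complex.norm_exp_ofReal_mul_I, mul_one]
    linarith
  have h4 : ‖(a : ℂ) + b * Complex.exp ((t : ℂ) * Complex.I)‖
      ≤ (a + b) - a * b * (1 - Real.cos t) := by
    have hab1 : a + b ≤ 1 := by
      have : 0 ≤ ∑ x ∈ range e, w (e + 2) q (x + 2) :=
        Finset.sum_nonneg fun x _ => w_nonneg hd1 hq _
      linarith
    have hcos1 := Real.cos_le_one t
    have hcos2 := Real.neg_one_le_cos t
    have hnn : 0 ≤ (a + b) - a * b * (1 - Real.cos t) := by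
      have : a * b ≤ (a + b) / 2 := by nlinarith
      nlinarith [mul_nonneg ha0 hb0]
    apply le_of_sq_le_sq _ hnn
    have h5 : ‖(a : ℂ) + b * Complex.exp ((t : ℂ) * Complex.I)‖ ^ 2
        = (a + b) ^ 2 - 2 * (a * b) * (1 - Real.cos t) := by
      rw [← Complex.normSq_eq_norm_sq, Complex.normSq_apply]
      have hre : ((a : ℂ) + b * Complex.exp ((t : ℂ) * Complex.I)).re = a + b * Real.cos t := by
        simp [Complex.exp_ofReal_mul_I_re]
      have him : ((a : ℂ) + b * Complex.exp ((t : ℂ) * Complex.I)).im = b * Real.sin t := by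
        simp [Complex.exp_ofReal_mul_I_im]
      rw [hre, him]
      linear_combination b ^ 2 * Real.sin_sq_add_cos_sq t
    rw [h5]
    have : ((a + b) - a * b * (1 - Real.cos t)) ^ 2
        = (a + b) ^ 2 - 2 * (a + b) * (a * b * (1 - Real.cos t))
          + (a * b * (1 - Real.cos t)) ^ 2 := by ring
    rw [this]
    have hx : 0 ≤ a * b * (1 - Real.cos t) := mul_nonneg (mul_nonneg ha0 hb0) (by linarith)
    nlinarith [sq_nonneg (a * b * (1 - Real.cos t))]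
  have h6 : ‖phi (e + 2) q t‖ ≤ 1 - a * b * (1 - Real.cos t) := by linarith
  refine h6.trans ?_
  have := Real.add_one_le_exp (-(a * b * (1 - Real.cos t)))
  linarith

end

end Pool.Agent.Lib_MP_97158b_co
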