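import Pool.Agent.Lib_MP_97158b_co.Central

set_option autoImplicit false

open Finset Filter MeasureTheory

namespace Pool.Agent.Lib_MP_97158b_co

lemma continuous_M (d n : ℕ) (hd : 1 ≤ d) : Continuous (M d n) := by
  unfold M
  refine continuous_finsetSum _ fun i _ => ?_
  refine continuous_const.mul ?_
  unfold mu
  refine continuous_finsetSum _ fun x _ => ?_
  refine continuous_const.mul ?_
  unfold w
  have hq : Continuous (fun s : ℝ => qq s i) := by unfold qq; fun_prop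
  have hZ : Continuous (fun s : ℝ => Z d (qq s i)) := by
    unfold Z; fun_prop
  exact (hq.pow x).div hZ fun s => (Z_pos hd (qq_pos s i).le).ne'

lemma M_le {d n : ℕ} {s : ℝ} {m : ℕ} (hd : 1 ≤ d) (h : Adm n s m) :
    M d n s ≤ d ^ 2 * KK 1 * (m : ℝ) ^ 2 := by
  unfold M
  calc ∑ i ∈ Icc 1 n, (i : ℝ) * mu d (qq s i)
      ≤ ∑ i ∈ Icc 1 n, (d : ℝ) ^ 2 * ((i : ℝ) ^ 1 * qq s i) := by
        refine Finset.sum_le_sum fun i _ => ?_
        calc (i : ℝ) * mu d (qq s i) ≤ (i : ℝ) * (d ^ 2 * qq s i) :=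
              mul_le_mul_of_nonneg_left (mu_le_q hd (qq_pos s i).le (qq_le_one h.s_nonneg i))
                (by positivity)
          _ = _ := by ring
    _ = d ^ 2 * ∑ i ∈ Icc 1 n, (i : ℝ) ^ 1 * qq s i := by rw [Finset.mul_sum]
    _ ≤ d ^ 2 * (KK 1 * (m : ℝ) ^ (1 + 1)) :=
        mul_le_mul_of_nonneg_left (moment_sum h 1) (by positivity)
    _ = _ := by ring

lemma mu_diff (d : ℕ) (hd : 1 ≤ d) (q : ℝ) (hq0 : 0 < q) (hq1 : q ≤ 1) :
    mu d 1 - mu d q ≤ d / 2 * (1 - q ^ (d - 1)) := by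
  have hd0 : (0 : ℝ) < d := by exact_mod_cast (by omega : 0 < d)
  have h1 : q ^ (d - 1) * mu d 1 ≤ mu d q := by
    unfold mu
    rw [Finset.mul_sum]
    refine Finset.sum_le_sum fun x hx => ?_
    rw [Finset.mem_range] at hx
    have h2 : q ^ (d - 1) * w d 1 x ≤ w d q x := by
      rw [w_one]
      unfold w
      have h3 : q ^ (d - 1) ≤ q ^ x := pow_le_pow_of_le_one hq0.le hq1 (by omega)
      have hZ := Z_pos (d := d) hd hq0.le
      rw [mul_one_div, div_le_div_iff₀ hd0 hZ]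
      exact mul_le_mul h3 (Z_le hq0.le hq1) hZ.le (by positivity)
    calc q ^ (d - 1) * ((x : ℝ) * w d 1 x) = (x : ℝ) * (q ^ (d - 1) * w d 1 x) := by ring
      _ ≤ _ := mul_le_mul_of_nonneg_left h2 (Nat.cast_nonneg x)
  have h4 : mu d 1 ≤ d / 2 := by rw [mu_one d hd]; linarith
  have h5 : q ^ (d - 1) ≤ 1 := pow_le_one₀ hq0.le hq1
  calc mu d 1 - mu d q ≤ mu d 1 - q ^ (d - 1) * mu d 1 := by linarith
    _ = mu d 1 * (1 - q ^ (d - 1)) := by ring
    _ ≤ _ := mul_le_mul_of_nonneg_right h4 (by linarith)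

lemma M_diff (d n : ℕ) (hd : 1 ≤ d) (s : ℝ) (hs : 0 ≤ s) :
    M d n 0 - M d n s ≤ d ^ 2 * s * (n : ℝ) ^ 3 := by
  unfold M
  rw [← Finset.sum_sub_distrib]
  calc ∑ i ∈ Icc 1 n, ((i : ℝ) * mu d (qq 0 i) - (i : ℝ) * mu d (qq s i))
      ≤ ∑ i ∈ Icc 1 n, (d : ℝ) ^ 2 * s * (n : ℝ) ^ 2 := by
        refine Finset.sum_le_sum fun i hi => ?_
        rw [Finset.mem_Icc] at hi
        have hin : (i : ℝ) ≤ n := by exact_mod_cast hi.2
        have hi0 : (0 : ℝ) ≤ i := Nat.cast_nonneg i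
        rw [qq_zero, ← mul_sub]
        have h1 := mu_diff d hd (qq s i) (qq_pos s i) (qq_le_one hs i)
        have h2 : 1 - (qq s i) ^ (d - 1) ≤ d * (s * i) := by
          unfold qq
          rw [← Real.exp_nat_mul]
          have h3 := Real.add_one_le_exp (((d - 1 : ℕ) : ℝ) * -(s * i))
          have h4 : ((d - 1 : ℕ) : ℝ) ≤ d := by exact_mod_cast Nat.sub_le d 1
          have h5 : ((d - 1 : ℕ) : ℝ) * (s * i) ≤ d * (s * i) :=
            mul_le_mul_of_nonneg_right h4 (by positivity)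
          linarith
        have h6 : mu d 1 - mu d (qq s i) ≤ d ^ 2 * (s * i) := by
          have h7 : (d : ℝ) / 2 * (1 - (qq s i) ^ (d - 1)) ≤ d / 2 * (d * (s * i)) :=
            mul_le_mul_of_nonneg_left h2 (by positivity)
          have h8 : (0 : ℝ) ≤ d ^ 2 * (s * i) := by positivity
          nlinarith
        calc (i : ℝ) * (mu d 1 - mu d (qq s i)) ≤ i * (d ^ 2 * (s * i)) :=
              mul_le_mul_of_nonneg_left h6 hi0
          _ = d ^ 2 * s * (i : ℝ) ^ 2 := by ring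
          _ ≤ _ := by
              apply mul_le_mul_of_nonneg_left _ (by positivity)
              exact pow_le_pow_left₀ hi0 hin 2
    _ = _ := by simp; ring

/-- existence of the effective size -/
lemma exists_adm (n m1 : ℕ) (hm1 : 1 ≤ m1) (hn : m1 ≤ n) (s : ℝ) (hs : 0 ≤ s)
    (hs1 : s ≤ 1 / m1) : ∃ m : ℕ, Adm n s m ∧ m1 ≤ m := by
  have hm1' : (0 : ℝ) < m1 := by exact_mod_cast hm1
  by_cases hcase : s * n ≤ 1
  · exact ⟨n, ⟨by omega, le_refl n, hs, hcase, Or.inl rfl⟩, hn⟩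
  · push Not at hcase
    have hspos : 0 < s := by
      rcases hs.lt_or_eq with h | h
      · exact h
      · rw [← h] at hcase; simp at hcase; linarith
    have hge : (m1 : ℝ) ≤ 1 / s := by
      rw [le_div_iff₀ hspos]
      rw [le_div_iff₀ hm1'] at hs1
      linarith
    have hm1f : m1 ≤ ⌊1 / s⌋₊ := Nat.le_floor hge
    refine ⟨⌊1 / s⌋₊, ⟨by omega, ?_, hs, ?_, Or.inr ?_⟩, hm1f⟩
    · apply Nat.floor_le_of_le
      rw [div_le_iff₀ hspos]; linarith
    · have h1 := Nat.floor_le (by positivity : 0 ≤ 1 / s)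
      have := mul_le_mul_of_nonneg_left h1 hs
      rwa [mul_one_div_cancel hspos.ne'] at this
    · have h1 := Nat.lt_floor_add_one (1 / s)
      have := mul_lt_mul_of_pos_left h1 hspos
      rw [mul_one_div_cancel hspos.ne'] at this
      exact this.le

theorem half_mono (d : ℕ) (hd : 2 ≤ d) : ∃ N0 : ℕ, ∀ n : ℕ, N0 ≤ n →
    ∀ k : ℕ, 1 ≤ k → 2 * k ≤ deg d n → (P d n).coeff (k - 1) ≤ (P d n).coeff k := by
  have hd1 : 1 ≤ d := by omega
  have hd0 : (0 : ℝ) < d := by exact_mod_cast (by omega : 0 < d)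
  obtain ⟨C1, hC1, M0, hM0⟩ := tilt_pos d hd
  obtain ⟨M1, hM1⟩ := central_pos d hd (d ^ 2 * C1 + 1)
  obtain ⟨K, hK⟩ := exists_nat_ge ((d : ℝ) ^ 2 * KK 1 + 1)
  obtain ⟨M2, hM2⟩ := exists_nat_ge (2 * C1 + 1)
  have hKpos : 0 < K := by
    have : (0 : ℝ) < K := lt_of_lt_of_le (by have := KK_pos 1; positivity) hK
    exact_mod_cast this
  set m1 : ℕ := M0 + M1 + M2 + 1 with hm1
  -- choose `N0 = K * m1^2`
  refine ⟨K * m1 ^ 2, fun n hn k hk1 hk2 => ?_⟩
  by_cases hkn : k ≤ n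
  · exact mono_small d n k hd hk1 hkn
  push Not at hkn
  have hm1n : m1 ≤ n := by
    have h1 : m1 ≤ m1 ^ 2 := Nat.le_self_pow (by norm_num) m1
    have h2 : m1 ^ 2 ≤ K * m1 ^ 2 := Nat.le_mul_of_pos_left _ hKpos
    omega
  have hm1pos : 1 ≤ m1 := by omega
  have hm1' : (0 : ℝ) < m1 := by exact_mod_cast hm1pos
  -- the endpoint
  have hadm1 : Adm n (1 / m1) m1 := by
    refine ⟨hm1pos, hm1n, by positivity, ?_, Or.inr ?_⟩
    · rw [one_div_mul_cancel hm1'.ne']
    · rw [one_div, ← div_eq_inv_mul, le_div_iff₀ hm1']; linarith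
  have hMend : M d n (1 / m1) ≤ k := by
    have h1 := M_le hd1 hadm1
    have h2 : (d : ℝ) ^ 2 * KK 1 * (m1 : ℝ) ^ 2 ≤ K * (m1 : ℝ) ^ 2 :=
      mul_le_mul_of_nonneg_right (by linarith) (by positivity)
    have h3 : ((K * m1 ^ 2 : ℕ) : ℝ) ≤ n := by exact_mod_cast hn
    have h4 : (n : ℝ) ≤ k := by exact_mod_cast hkn.le
    push_cast at h3
    linarith
  have hM0k : (k : ℝ) ≤ M d n 0 := by
    rw [M_zero d n hd1]
    have : ((2 * k : ℕ) : ℝ) ≤ (deg d n : ℝ) := by exact_mod_cast hk2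
    push_cast at this
    linarith
  have hivt := intermediate_value_Icc' (f := M d n) (show (0 : ℝ) ≤ 1 / m1 by positivity)
    (continuous_M d n hd1).continuousOn
  obtain ⟨s, hs, hsk⟩ := hivt ⟨hMend, hM0k⟩
  obtain ⟨m, hadm, hmm⟩ := exists_adm n m1 hm1pos hm1n s hs.1 hs.2
  have hm0 : (0 : ℝ) < m := by exact_mod_cast (by omega : 0 < m)
  by_cases hcase : C1 / (m : ℝ) ^ 2 ≤ s
  · apply mono_of_integral d n hd1 s k hk1
    have h1 := hM0 n s m hadm (by omega) hcase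
    have h2 : M d n s - k = 0 := by rw [hsk]; ring
    rw [h2]; exact h1
  · push Not at hcase
    have hmn : m = n := by
      rcases hadm.alt with h | h
      · exact h
      · exfalso
        have h1 : (1 : ℝ) ≤ s * (2 * m) := by
          have h2 : (1 : ℝ) ≤ m := by exact_mod_cast (by omega : 1 ≤ m)
          have h3 : s * (m + 1) ≤ s * (2 * m) := mul_le_mul_of_nonneg_left (by linarith) hs.1
          linarith
        have h4 : s * (m : ℝ) ^ 2 < C1 := by
          rwa [lt_div_iff₀ (by positivity)] at hcase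
        have h5 : (m : ℝ) ≤ 2 * (s * (m : ℝ) ^ 2) := by nlinarith
        have h6 : (M2 : ℝ) ≤ m := by exact_mod_cast (by omega : M2 ≤ m)
        linarith
    rw [hmn] at hcase
    have hn0 : (0 : ℝ) < n := by exact_mod_cast (by omega : 0 < n)
    have hn1 : (1 : ℝ) ≤ n := by exact_mod_cast (by omega : 1 ≤ n)
    apply mono_of_integral d n hd1 0 k hk1
    apply hM1 n (by omega)
    · linarith
    · have h1 := M_diff d n hd1 s hs.1
      rw [hsk] at h1
      have h2 : s * (n : ℝ) ^ 2 ≤ C1 := by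
        rw [lt_div_iff₀ (by positivity)] at hcase; exact hcase.le
      have h3 : d ^ 2 * s * (n : ℝ) ^ 3 ≤ d ^ 2 * C1 * n := by
        calc d ^ 2 * s * (n : ℝ) ^ 3 = (d ^ 2 * n) * (s * (n : ℝ) ^ 2) := by ring
          _ ≤ (d ^ 2 * n) * C1 := mul_le_mul_of_nonneg_left h2 (by positivity)
          _ = _ := by ring
      linarith

/-- **Almkvist's conjecture**, in terms of `P`. -/
theorem almkvist (d : ℕ) (hd : 2 ≤ d) : ∃ N0 : ℕ, ∀ n : ℕ, N0 ≤ n →
    ∃ m : ℕ,
        (∀ a b : ℕ, a ≤ b → b ≤ m → (P d n).coeff a ≤ (P d n).coeff b) ∧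
        (∀ a b : ℕ, m ≤ a → a ≤ b → (P d n).coeff b ≤ (P d n).coeff a) := by
  obtain ⟨N0, hN0⟩ := half_mono d hd
  exact ⟨N0, fun n hn => unimodal_of_half d n (by omega) (hN0 n hn)⟩

end Pool.Agent.Lib_MP_97158b_co
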