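import Pool.Agent.Lib_MP_97158b_co.Comb
import Pool.Agent.Lib_MP_97158b_co.Diff

set_option autoImplicit false

open Finset Polynomial

namespace Pool.Agent.Lib_MP_97158b_co

/-- the mean of the tilted law -/
noncomputable def M (d n : ℕ) (s : ℝ) : ℝ := ∑ i ∈ Icc 1 n, (i : ℝ) * mu d (qq s i)

lemma int_exp (j : ℤ) :
    ∫ θ in (-Real.pi)..Real.pi, Complex.exp (((j : ℝ) * θ : ℝ) * Complex.I)
      = if j = 0 then (2 * Real.pi : ℂ) else 0 := by
  split_ifs with hj
  · subst hj
    simp
    ring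
  · have hc : ((j : ℂ) * Complex.I) ≠ 0 := by
      simp [hj]
    have h1 := integral_exp_mul_complex (a := -Real.pi) (b := Real.pi) hc
    have h2 : (fun θ : ℝ => Complex.exp (((j : ℝ) * θ : ℝ) * Complex.I))
        = fun θ : ℝ => Complex.exp ((j : ℂ) * Complex.I * θ) := by
      funext θ; congr 1; push_cast; ring
    rw [h2, h1]
    have h3 : Complex.exp ((j : ℂ) * Complex.I * ((Real.pi : ℝ) : ℂ))
        = Complex.exp ((j : ℂ) * Complex.I * ((-Real.pi : ℝ) : ℂ)) := by
      have : (j : ℂ) * Complex.I * ((Real.pi : ℝ) : ℂ)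
          = (j : ℂ) * Complex.I * ((-Real.pi : ℝ) : ℂ) + j * (2 * Real.pi * Complex.I) := by
        push_cast; ring
      rw [this]
      exact (Complex.exp_periodic.int_mul j) _
    rw [h3, sub_self, zero_div]

lemma factor_eval (d i : ℕ) (hd : 1 ≤ d) (s θ : ℝ) :
    ∑ x ∈ range d, Complex.exp (-(s : ℂ) + θ * Complex.I) ^ (i * x)
      = (Z d (qq s i) : ℂ) * phi d (qq s i) (i * θ)
        * Complex.exp (((i : ℝ) * mu d (qq s i) * θ : ℝ) * Complex.I) := by
  have hZ := (Z_pos (d := d) hd (qq_pos s i).le).ne'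
  have hZc : (Z d (qq s i) : ℂ) ≠ 0 := by exact_mod_cast hZ
  unfold phi
  rw [Finset.mul_sum, Finset.sum_mul]
  refine Finset.sum_congr rfl fun x _ => ?_
  rw [mul_assoc, mul_assoc, ← Complex.exp_add, ← Complex.exp_nat_mul]
  have h1 : (w d (qq s i) x : ℂ) = Complex.exp (-(s * i * x)) / (Z d (qq s i) : ℂ) := by
    unfold w qq
    rw [← Real.exp_nat_mul]
    push_cast
    congr 2
    ring
  rw [h1, ← mul_assoc, mul_div_cancel₀ _ hZc, ← Complex.exp_add]
  congr 1
  push_cast
  ring

lemma eval_identity (d n : ℕ) (hd : 1 ≤ d) (s θ : ℝ) :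
    ∑ j ∈ range (deg d n + 1), ((P d n).coeff j : ℂ)
        * Complex.exp (-(s : ℂ) + θ * Complex.I) ^ j
      = ((∏ i ∈ Icc 1 n, Z d (qq s i) : ℝ) : ℂ) * psi d n s θ
        * Complex.exp ((M d n s * θ : ℝ) * Complex.I) := by
  set z := Complex.exp (-(s : ℂ) + θ * Complex.I) with hz
  have h1 : ∑ j ∈ range (deg d n + 1), ((P d n).coeff j : ℂ) * z ^ j
      = ((P d n).map (Nat.castRingHom ℂ)).eval z := by
    rw [Polynomial.eval_eq_sum_range' (n := deg d n + 1)]
    · refine Finset.sum_congr rfl fun j _ => ?_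
      rw [coeff_map]; simp
    · refine lt_of_le_of_lt (natDegree_map_le) ?_
      exact Nat.lt_succ_of_le (P_natDegree d n)
  rw [h1]
  unfold P blk
  rw [Polynomial.map_prod, Polynomial.eval_prod]
  have h2 : ∀ i ∈ Icc 1 n, (Polynomial.map (Nat.castRingHom ℂ)
      (∑ k ∈ range d, (X : ℕ[X]) ^ (i * k))).eval z
      = (Z d (qq s i) : ℂ) * phi d (qq s i) (i * θ)
        * Complex.exp (((i : ℝ) * mu d (qq s i) * θ : ℝ) * Complex.I) := by
    intro i _
    rw [← factor_eval d i hd s θ, Polynomial.map_sum, Polynomial.eval_finsetSum]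
    refine Finset.sum_congr rfl fun k _ => ?_
    simp [hz]
  rw [Finset.prod_congr rfl h2, Finset.prod_mul_distrib, Finset.prod_mul_distrib]
  unfold psi
  congr 1
  · rw [Complex.ofReal_prod]
  · rw [← Complex.exp_sum]
    congr 1
    unfold M
    rw [← Finset.sum_mul, ← Complex.ofReal_sum, ← Finset.sum_mul]

lemma continuous_phi (d : ℕ) (q : ℝ) : Continuous (phi d q) := by
  unfold phi
  fun_prop

lemma continuous_psi (d n : ℕ) (s : ℝ) : Continuous (psi d n s) := by
  unfold psi
  refine continuous_finsetProd _ fun i _ => ?_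
  exact (continuous_phi d (qq s i)).comp (by fun_prop)

lemma coeff_integral (d n : ℕ) (hd : 1 ≤ d) (s : ℝ) (k : ℕ) :
    (2 * Real.pi : ℂ) * ((P d n).coeff k : ℂ) * Complex.exp (-(s * k))
      = ((∏ i ∈ Icc 1 n, Z d (qq s i) : ℝ) : ℂ) * ∫ θ in (-Real.pi)..Real.pi,
          psi d n s θ * Complex.exp (((M d n s - k) * θ : ℝ) * Complex.I) := by
  rw [← intervalIntegral.integral_const_mul]
  have h1 : ∀ θ : ℝ, ((∏ i ∈ Icc 1 n, Z d (qq s i) : ℝ) : ℂ) *
        (psi d n s θ * Complex.exp (((M d n s - k) * θ : ℝ) * Complex.I))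
      = ∑ j ∈ range (deg d n + 1), (((P d n).coeff j : ℂ) * Complex.exp (-(s * j)))
          * Complex.exp ((((j : ℤ) - (k : ℤ) : ℤ) : ℝ) * θ * Complex.I) := by
    intro θ
    have h2 : Complex.exp (((M d n s - k) * θ : ℝ) * Complex.I)
        = Complex.exp ((M d n s * θ : ℝ) * Complex.I) * Complex.exp (-(k * θ * Complex.I)) := by
      rw [← Complex.exp_add]; congr 1; push_cast; ring
    rw [h2]
    calc _ = (((∏ i ∈ Icc 1 n, Z d (qq s i) : ℝ) : ℂ) * psi d n s θ
        * Complex.exp ((M d n s * θ : ℝ) * Complex.I)) * Complex.exp (-(k * θ * Complex.I)) := by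
          ring
      _ = _ := by
          rw [← eval_identity d n hd s θ, Finset.sum_mul]
          refine Finset.sum_congr rfl fun j _ => ?_
          rw [← Complex.exp_nat_mul]
          have h3 : Complex.exp ((j : ℂ) * (-(s : ℂ) + θ * Complex.I))
                * Complex.exp (-(k * θ * Complex.I))
              = Complex.exp (-(s * j))
                * Complex.exp ((((j : ℤ) - (k : ℤ) : ℤ) : ℝ) * θ * Complex.I) := by
            rw [← Complex.exp_add, ← Complex.exp_add]
            congr 1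
            push_cast
            ring
          linear_combination ((P d n).coeff j : ℂ) * h3
  simp_rw [h1]
  rw [intervalIntegral.integral_finsetSum]
  · have h3 : ∀ j ∈ range (deg d n + 1), ∫ θ in (-Real.pi)..Real.pi,
        (((P d n).coeff j : ℂ) * Complex.exp (-(s * j)))
          * Complex.exp ((((j : ℤ) - (k : ℤ) : ℤ) : ℝ) * θ * Complex.I)
        = if j = k then (((P d n).coeff j : ℂ) * Complex.exp (-(s * j))) * (2 * Real.pi) else 0 := by
      intro j _
      rw [intervalIntegral.integral_const_mul]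
      have h4 := int_exp ((j : ℤ) - (k : ℤ))
      have h5 : (fun θ : ℝ => Complex.exp ((((j : ℤ) - (k : ℤ) : ℤ) : ℝ) * θ * Complex.I))
          = fun θ : ℝ => Complex.exp ((((((j : ℤ) - (k : ℤ) : ℤ) : ℝ)) * θ : ℝ) * Complex.I) := by
        funext θ; congr 1; push_cast; ring
      rw [h5, h4]
      by_cases hjk : j = k
      · subst hjk; simp
      · have : ((j : ℤ) - (k : ℤ)) ≠ 0 := by omega
        rw [if_neg this, if_neg hjk, mul_zero]
    rw [Finset.sum_congr rfl h3, Finset.sum_ite_eq']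
    split_ifs with hmem
    · ring
    · have : (P d n).coeff k = 0 := by
        apply coeff_eq_zero_of_natDegree_lt
        rw [Finset.mem_range] at hmem
        exact lt_of_le_of_lt (P_natDegree d n) (by omega)
      rw [this]; simp
  · intro j _
    apply Continuous.intervalIntegrable
    fun_prop

/-- the kernel -/
noncomputable def ker (s v θ : ℝ) : ℂ :=
  Complex.exp ((v * θ : ℝ) * Complex.I) * (1 - Complex.exp (-(s : ℂ) + θ * Complex.I))

lemma continuous_ker (s v : ℝ) : Continuous (ker s v) := by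
  unfold ker
  fun_prop

theorem diff_integral (d n : ℕ) (hd : 1 ≤ d) (s : ℝ) (k : ℕ) (hk : 1 ≤ k) :
    2 * Real.pi * (((P d n).coeff k : ℝ) - ((P d n).coeff (k - 1) : ℝ)) * Real.exp (-(s * k))
      = (∏ i ∈ Icc 1 n, Z d (qq s i)) * ∫ θ in (-Real.pi)..Real.pi,
          (psi d n s θ * ker s (M d n s - k) θ).re := by
  have h1 := coeff_integral d n hd s k
  have h2 := coeff_integral d n hd s (k - 1)
  have hcast : ((k - 1 : ℕ) : ℂ) = (k : ℂ) - 1 := by
    push_cast [Nat.cast_sub hk]; ring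
  have hcastR : ((k - 1 : ℕ) : ℝ) = (k : ℝ) - 1 := by
    push_cast [Nat.cast_sub hk]; ring
  have h3 : (2 * Real.pi : ℂ) * (((P d n).coeff k : ℂ) - ((P d n).coeff (k - 1) : ℂ))
      * Complex.exp (-(s * k))
      = ((∏ i ∈ Icc 1 n, Z d (qq s i) : ℝ) : ℂ) * ∫ θ in (-Real.pi)..Real.pi,
          psi d n s θ * ker s (M d n s - k) θ := by
    have h4 : Complex.exp (-(s * k)) = Complex.exp (-(s : ℂ)) * Complex.exp (-(s * ((k - 1 : ℕ) : ℂ))) := by
      rw [← Complex.exp_add, hcast]; congr 1; ring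
    have h5 : (2 * Real.pi : ℂ) * (((P d n).coeff k : ℂ) - ((P d n).coeff (k - 1) : ℂ))
        * Complex.exp (-(s * k))
        = (2 * Real.pi : ℂ) * ((P d n).coeff k : ℂ) * Complex.exp (-(s * k))
          - Complex.exp (-(s : ℂ)) * ((2 * Real.pi : ℂ) * ((P d n).coeff (k - 1) : ℂ)
            * Complex.exp (-(s * ((k - 1 : ℕ) : ℂ)))) := by
      rw [h4]; ring
    rw [h5, h1, h2]
    have h6 : ∀ θ : ℝ, psi d n s θ * ker s (M d n s - k) θ
        = psi d n s θ * Complex.exp (((M d n s - k) * θ : ℝ) * Complex.I)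
          - Complex.exp (-(s : ℂ)) * (psi d n s θ
            * Complex.exp (((M d n s - ((k - 1 : ℕ) : ℝ)) * θ : ℝ) * Complex.I)) := by
      intro θ
      unfold ker
      have h7 : Complex.exp (((M d n s - ((k - 1 : ℕ) : ℝ)) * θ : ℝ) * Complex.I)
          = Complex.exp (((M d n s - k) * θ : ℝ) * Complex.I) * Complex.exp (θ * Complex.I) := by
        rw [← Complex.exp_add, hcastR]; congr 1; push_cast; ring
      rw [h7, Complex.exp_add]
      ring
    simp_rw [h6]
    rw [intervalIntegral.integral_sub, intervalIntegral.integral_const_mul]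
    · ring
    · apply Continuous.intervalIntegrable
      exact (continuous_psi d n s).mul (by fun_prop)
    · apply Continuous.intervalIntegrable
      exact continuous_const.mul ((continuous_psi d n s).mul (by fun_prop))
  have hint : IntervalIntegrable (fun θ => psi d n s θ * ker s (M d n s - k) θ)
      MeasureTheory.volume (-Real.pi) Real.pi := by
    apply Continuous.intervalIntegrable
    exact (continuous_psi d n s).mul (continuous_ker s _)
  have h8 : (∫ θ in (-Real.pi)..Real.pi, psi d n s θ * ker s (M d n s - k) θ).re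
      = ∫ θ in (-Real.pi)..Real.pi, (psi d n s θ * ker s (M d n s - k) θ).re := by
    have := (Complex.reCLM.intervalIntegral_comp_comm hint)
    simpa using this.symm
  have h9 := congrArg Complex.re h3
  rw [Complex.re_ofReal_mul, h8] at h9
  rw [← h9]
  have h10 : (2 * Real.pi : ℂ) * (((P d n).coeff k : ℂ) - ((P d n).coeff (k - 1) : ℂ))
      * Complex.exp (-(s * k))
      = ((2 * Real.pi * (((P d n).coeff k : ℝ) - ((P d n).coeff (k - 1) : ℝ))
        * Real.exp (-(s * k)) : ℝ) : ℂ) := by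
    push_cast; ring
  rw [h10, Complex.ofReal_re]

/-- Positivity of the integral gives monotonicity. -/
theorem mono_of_integral (d n : ℕ) (hd : 1 ≤ d) (s : ℝ) (k : ℕ) (hk : 1 ≤ k)
    (h : 0 ≤ ∫ θ in (-Real.pi)..Real.pi, (psi d n s θ * ker s (M d n s - k) θ).re) :
    (P d n).coeff (k - 1) ≤ (P d n).coeff k := by
  have h1 := diff_integral d n hd s k hk
  have hZ : 0 ≤ ∏ i ∈ Icc 1 n, Z d (qq s i) :=
    Finset.prod_nonneg fun i _ => (Z_pos hd (qq_pos s i).le).le
  have h2 : 0 ≤ 2 * Real.pi * (((P d n).coeff k : ℝ) - ((P d n).coeff (k - 1) : ℝ))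
      * Real.exp (-(s * k)) := by rw [h1]; exact mul_nonneg hZ h
  have h3 : 0 ≤ ((P d n).coeff k : ℝ) - ((P d n).coeff (k - 1) : ℝ) := by
    by_contra hcon
    push Not at hcon
    have h4 : 2 * Real.pi * (((P d n).coeff k : ℝ) - ((P d n).coeff (k - 1) : ℝ))
      * Real.exp (-(s * k)) < 0 := by
      apply mul_neg_of_neg_of_pos _ (Real.exp_pos _)
      exact mul_neg_of_pos_of_neg (by positivity) hcon
    linarith
  have h5 : ((P d n).coeff (k - 1) : ℝ) ≤ ((P d n).coeff k : ℝ) := by linarith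
  exact_mod_cast h5

end Pool.Agent.Lib_MP_97158b_co
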