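import Mathlib

set_option autoImplicit false

open MeasureTheory

namespace Pool.Agent.Lib_MP_97158b_co

/-- the constant in the Gaussian moment bounds -/
noncomputable def gp (p : ℕ) : ℝ := 3 * (2 ^ p * p.factorial)

lemma gp_pos (p : ℕ) : 0 < gp p := by unfold gp; positivity

lemma pow_mul_exp_le (p : ℕ) (y : ℝ) (hy : 0 ≤ y) :
    y ^ p * Real.exp (-(y ^ 2)) ≤ 2 ^ p * p.factorial * Real.exp (-(y ^ 2 / 2)) := by
  have h0 : Real.exp (-(y ^ 2)) = Real.exp (-(y ^ 2 / 2)) * Real.exp (-(y ^ 2 / 2)) := by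
    rw [← Real.exp_add]; congr 1; ring
  have hfac : (1 : ℝ) ≤ p.factorial := by exact_mod_cast Nat.factorial_pos p
  have h2p : (1 : ℝ) ≤ 2 ^ p := one_le_pow₀ (by norm_num)
  have hE : 0 < Real.exp (y ^ 2 / 2) := Real.exp_pos _
  have h1 : y ^ p ≤ 2 ^ p * p.factorial * Real.exp (y ^ 2 / 2) := by
    by_cases hy1 : 1 ≤ y
    · have h2 := Real.pow_div_factorial_le_exp (x := y ^ 2 / 2) (by positivity) p
      rw [div_pow, div_div, div_le_iff₀ (by positivity), ← pow_mul] at h2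
      have h3 : y ^ p ≤ y ^ (2 * p) := pow_le_pow_right₀ hy1 (by omega)
      calc y ^ p ≤ y ^ (2 * p) := h3
        _ ≤ _ := h2
        _ = _ := by ring
    · push Not at hy1
      have h2 : y ^ p ≤ 1 := pow_le_one₀ hy hy1.le
      have h3 : 1 ≤ Real.exp (y ^ 2 / 2) := Real.one_le_exp (by positivity)
      have h4 : (1 : ℝ) ≤ 2 ^ p * p.factorial := by nlinarith
      nlinarith
  rw [h0, ← mul_assoc]
  apply mul_le_mul_of_nonneg_right _ (Real.exp_pos _).le
  rw [Real.exp_neg, ← div_eq_mul_inv, div_le_iff₀ hE]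
  exact h1

lemma gauss_moment (p : ℕ) (β : ℝ) (hβ : 0 < β) :
    ∫ θ in (-Real.pi)..Real.pi, |θ| ^ p * Real.exp (-(β ^ 2 * θ ^ 2)) ≤ gp p / β ^ (p + 1) := by
  have hb : 0 < β ^ 2 / 2 := by positivity
  have hpi := Real.pi_pos
  have hpt : ∀ θ : ℝ, |θ| ^ p * Real.exp (-(β ^ 2 * θ ^ 2))
      ≤ (2 ^ p * p.factorial) / β ^ p * Real.exp (-(β ^ 2 / 2) * θ ^ 2) := by
    intro θ
    have h := pow_mul_exp_le p (β * |θ|) (by positivity)
    have e1 : (β * |θ|) ^ 2 = β ^ 2 * θ ^ 2 := by rw [mul_pow, sq_abs]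
    rw [e1, mul_pow] at h
    have e2 : -(β ^ 2 * θ ^ 2 / 2) = -(β ^ 2 / 2) * θ ^ 2 := by ring
    rw [e2] at h
    rw [div_mul_eq_mul_div, le_div_iff₀ (by positivity)]
    calc |θ| ^ p * Real.exp (-(β ^ 2 * θ ^ 2)) * β ^ p
        = β ^ p * |θ| ^ p * Real.exp (-(β ^ 2 * θ ^ 2)) := by ring
      _ ≤ _ := h
  calc ∫ θ in (-Real.pi)..Real.pi, |θ| ^ p * Real.exp (-(β ^ 2 * θ ^ 2))
      ≤ ∫ θ in (-Real.pi)..Real.pi,
          (2 ^ p * p.factorial) / β ^ p * Real.exp (-(β ^ 2 / 2) * θ ^ 2) := by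
        apply intervalIntegral.integral_mono_on (by linarith)
        · apply Continuous.intervalIntegrable; fun_prop
        · apply Continuous.intervalIntegrable; fun_prop
        · intro θ _; exact hpt θ
    _ = (2 ^ p * p.factorial) / β ^ p
        * ∫ θ in (-Real.pi)..Real.pi, Real.exp (-(β ^ 2 / 2) * θ ^ 2) := by
        rw [intervalIntegral.integral_const_mul]
    _ ≤ (2 ^ p * p.factorial) / β ^ p * ∫ θ : ℝ, Real.exp (-(β ^ 2 / 2) * θ ^ 2) := by
        apply mul_le_mul_of_nonneg_left _ (by positivity)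
        rw [intervalIntegral.integral_of_le (by linarith)]
        apply setIntegral_le_integral
        · exact integrable_exp_neg_mul_sq hb
        · exact Filter.Eventually.of_forall fun θ => (Real.exp_pos _).le
    _ = (2 ^ p * p.factorial) / β ^ p * Real.sqrt (Real.pi / (β ^ 2 / 2)) := by
        rw [integral_gaussian]
    _ ≤ (2 ^ p * p.factorial) / β ^ p * (3 / β) := by
        apply mul_le_mul_of_nonneg_left _ (by positivity)
        rw [Real.sqrt_le_left (by positivity)]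
        rw [div_pow, div_div_eq_mul_div, div_le_div_iff_of_pos_right (by positivity)]
        nlinarith [Real.pi_lt_d2]
    _ = gp p / β ^ (p + 1) := by
        unfold gp; rw [pow_succ]; field_simp

end Pool.Agent.Lib_MP_97158b_co
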