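import Pool.Agent.Lib_MP_97158b_co.Fourier
import Pool.Agent.Lib_MP_97158b_co.Gauss

set_option autoImplicit false

open Finset Filter MeasureTheory

namespace Pool.Agent.Lib_MP_97158b_co

/-! ### Elementary asymptotics -/

lemma ev_sqrt (ε : ℝ) (hε : 0 < ε) :
    ∀ᶠ m : ℕ in atTop, Real.sqrt ((m : ℝ) ^ 3) ≤ ε * (m : ℝ) ^ 2 := by
  obtain ⟨N, hN⟩ := exists_nat_ge (1 / ε ^ 2)
  filter_upwards [eventually_ge_atTop N] with m hm
  have hm' : 1 / ε ^ 2 ≤ (m : ℝ) := hN.trans (by exact_mod_cast hm)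
  rw [Real.sqrt_le_left (by positivity)]
  rw [div_le_iff₀ (by positivity)] at hm'
  have h3 : (0 : ℝ) ≤ (m : ℝ) ^ 3 := by positivity
  calc (m : ℝ) ^ 3 = 1 * (m : ℝ) ^ 3 := by ring
    _ ≤ (m * ε ^ 2) * (m : ℝ) ^ 3 := mul_le_mul_of_nonneg_right hm' h3
    _ = _ := by ring

lemma ev_exp (p : ℕ) (c : ℝ) (hc : 0 < c) (ε : ℝ) (hε : 0 < ε) :
    ∀ᶠ m : ℕ in atTop, (m : ℝ) ^ p * Real.exp (-(c * m)) ≤ ε := by
  have h1 := Real.tendsto_pow_mul_exp_neg_atTop_nhds_zero p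
  have h2 : Tendsto (fun m : ℕ => c * (m : ℝ)) atTop atTop :=
    Tendsto.const_mul_atTop hc tendsto_natCast_atTop_atTop
  have h3 := h1.comp h2
  have h4 := (h3.eventually (gt_mem_nhds (show (0 : ℝ) < ε * c ^ p by positivity)))
  filter_upwards [h4] with m hm
  simp only [Function.comp] at hm
  rw [mul_pow] at hm
  have hcp : 0 < c ^ p := by positivity
  have : c ^ p * ((m : ℝ) ^ p * Real.exp (-(c * m))) < ε * c ^ p := by
    calc _ = c ^ p * (m : ℝ) ^ p * Real.exp (-(c * m)) := by ring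
      _ < _ := hm
  nlinarith

lemma exp_half_ge : (1 : ℝ) / 2 ≤ Real.exp (-(1 / 2)) := by
  rw [Real.exp_neg, one_div]
  apply inv_anti₀ (Real.exp_pos _)
  have h : Real.exp (1 / 2) ^ 2 = Real.exp 1 := by
    rw [← Real.exp_nat_mul]; norm_num
  have h2 := Real.exp_one_lt_d9
  nlinarith [Real.exp_pos (1 / 2)]

/-! ### lower bounds for the Gaussian integrals -/

lemma continuous_G (d n : ℕ) (s : ℝ) : Continuous (G d n s) := by
  unfold G; fun_prop

lemma G_pos (d n : ℕ) (s θ : ℝ) : 0 < G d n s θ := Real.exp_pos _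

lemma G_ge_half (d n : ℕ) (s B ρ : ℝ) (hσ : sig2 d n s ≤ B) (hσ0 : 0 ≤ sig2 d n s)
    (hρ : B * ρ ^ 2 ≤ 1) (θ : ℝ) (hθ : |θ| ≤ ρ) : 1 / 2 ≤ G d n s θ := by
  refine exp_half_ge.trans ?_
  unfold G
  apply Real.exp_le_exp.mpr
  have h1 : θ ^ 2 ≤ ρ ^ 2 := by
    rw [← sq_abs θ]; exact pow_le_pow_left₀ (abs_nonneg _) hθ 2
  have h2 : sig2 d n s * θ ^ 2 ≤ B * ρ ^ 2 :=
    mul_le_mul hσ h1 (sq_nonneg _) (hσ0.trans hσ)
  linarith

lemma sig2_nonneg (d n : ℕ) (hd : 1 ≤ d) (s : ℝ) : 0 ≤ sig2 d n s :=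
  Finset.sum_nonneg fun i _ => mul_nonneg (by positivity) (V_nonneg hd (qq_pos s i).le)

lemma int_G_ge (d n : ℕ) (hd : 1 ≤ d) (s B ρ : ℝ) (hσ : sig2 d n s ≤ B)
    (hρ0 : 0 ≤ ρ) (hρ1 : ρ ≤ Real.pi) (hρ : B * ρ ^ 2 ≤ 1) :
    ρ ≤ ∫ θ in (-Real.pi)..Real.pi, G d n s θ := by
  have hpi := Real.pi_pos
  have h1 : ∫ θ in (-ρ)..ρ, G d n s θ ≤ ∫ θ in (-Real.pi)..Real.pi, G d n s θ := by
    apply intervalIntegral.integral_mono_interval (by linarith) (by linarith) hρ1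
    · exact Filter.Eventually.of_forall fun θ => (G_pos d n s θ).le
    · exact (continuous_G d n s).intervalIntegrable _ _
  have h2 : ∫ θ in (-ρ)..ρ, (1 / 2 : ℝ) ≤ ∫ θ in (-ρ)..ρ, G d n s θ := by
    apply intervalIntegral.integral_mono_on (by linarith)
    · exact continuous_const.intervalIntegrable _ _
    · exact (continuous_G d n s).intervalIntegrable _ _
    · intro θ hθ
      exact G_ge_half d n s B ρ hσ (sig2_nonneg d n hd s) hρ θ (abs_le.mpr ⟨hθ.1, hθ.2⟩)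
  rw [intervalIntegral.integral_const] at h2
  simp only [smul_eq_mul] at h2
  linarith

lemma int_sq_G_ge (d n : ℕ) (hd : 1 ≤ d) (s B ρ : ℝ) (hσ : sig2 d n s ≤ B)
    (hρ0 : 0 ≤ ρ) (hρ1 : ρ ≤ Real.pi) (hρ : B * ρ ^ 2 ≤ 1) :
    ρ ^ 3 / 3 ≤ ∫ θ in (-Real.pi)..Real.pi, θ ^ 2 * G d n s θ := by
  have hpi := Real.pi_pos
  have hcont : Continuous (fun θ => θ ^ 2 * G d n s θ) := by
    have := continuous_G d n s; fun_prop
  have h1 : ∫ θ in (-ρ)..ρ, θ ^ 2 * G d n s θ ≤ ∫ θ in (-Real.pi)..Real.pi, θ ^ 2 * G d n s θ := by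
    apply intervalIntegral.integral_mono_interval (by linarith) (by linarith) hρ1
    · exact Filter.Eventually.of_forall fun θ => mul_nonneg (sq_nonneg _) (G_pos d n s θ).le
    · exact hcont.intervalIntegrable _ _
  have h2 : ∫ θ in (-ρ)..ρ, (θ ^ 2 * (1 / 2) : ℝ) ≤ ∫ θ in (-ρ)..ρ, θ ^ 2 * G d n s θ := by
    apply intervalIntegral.integral_mono_on (by linarith)
    · apply Continuous.intervalIntegrable; fun_prop
    · exact hcont.intervalIntegrable _ _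
    · intro θ hθ
      apply mul_le_mul_of_nonneg_left _ (sq_nonneg _)
      exact G_ge_half d n s B ρ hσ (sig2_nonneg d n hd s) hρ θ (abs_le.mpr ⟨hθ.1, hθ.2⟩)
  rw [intervalIntegral.integral_mul_const, integral_pow] at h2
  have h3 : (ρ ^ (2 + 1) - (-ρ) ^ (2 + 1)) / ((2 : ℕ) + 1) * (1 / 2) = ρ ^ 3 / 3 := by
    push_cast; ring
  rw [h3] at h2
  linarith

/-! ### The tilted regime -/

lemma ker_zero_norm (s θ : ℝ) (hs : 0 ≤ s) : ‖ker s 0 θ‖ ≤ s + |θ| := by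
  unfold ker
  rw [norm_mul, Complex.norm_exp_ofReal_mul_I, one_mul, Complex.exp_add]
  have h1 : (1 : ℂ) - Complex.exp (-(s : ℂ)) * Complex.exp (θ * Complex.I)
      = (1 - Complex.exp (-(s : ℂ))) - Complex.exp (-(s : ℂ)) * (Complex.exp (θ * Complex.I) - 1) := by
    ring
  rw [h1]
  refine (norm_sub_le _ _).trans (add_le_add ?_ ?_)
  · have : (1 - Complex.exp (-(s : ℂ))) = ((1 - Real.exp (-s) : ℝ) : ℂ) := by push_cast; ring
    rw [this, Complex.norm_real, Real.norm_eq_abs, abs_of_nonneg]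
    · have := Real.add_one_le_exp (-s); linarith
    · have : Real.exp (-s) ≤ 1 := Real.exp_le_one_iff.mpr (by linarith)
      linarith
  · rw [norm_mul]
    have h2 : ‖Complex.exp (-(s : ℂ))‖ ≤ 1 := by
      have : Complex.exp (-(s : ℂ)) = ((Real.exp (-s) : ℝ) : ℂ) := by push_cast; rfl
      rw [this, Complex.norm_real, Real.norm_eq_abs, abs_of_pos (Real.exp_pos _)]
      exact Real.exp_le_one_iff.mpr (by linarith)
    have h3 : ‖Complex.exp (θ * Complex.I) - 1‖ ≤ |θ| := by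
      have := Real.norm_exp_I_mul_ofReal_sub_one_le (x := θ)
      rwa [mul_comm Complex.I, Real.norm_eq_abs] at this
    calc _ ≤ 1 * |θ| := mul_le_mul h2 h3 (norm_nonneg _) (by norm_num)
      _ = _ := one_mul _

lemma ker_zero_re (s θ : ℝ) (hs : 0 ≤ s) (hs1 : s ≤ 1) : s / 2 ≤ (ker s 0 θ).re := by
  have h1 : (ker s 0 θ).re = 1 - Real.exp (-s) * Real.cos θ := by
    unfold ker
    have : Complex.exp (-(s : ℂ) + θ * Complex.I)
        = ((Real.exp (-s) : ℝ) : ℂ) * Complex.exp (θ * Complex.I) := by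
      rw [Complex.exp_add]; push_cast; rfl
    have e0 : Complex.exp (((0 * θ : ℝ) : ℂ) * Complex.I) = 1 := by simp
    rw [this, e0, one_mul, Complex.sub_re, Complex.re_ofReal_mul, Complex.exp_ofReal_mul_I_re,
      Complex.one_re]
  rw [h1]
  have h2 : Real.exp (-s) ≤ 1 - s / 2 := by
    have hx : ‖-s‖ ≤ 1 := by rw [norm_neg, Real.norm_eq_abs, abs_of_nonneg hs]; exact hs1
    have h3 := Real.norm_exp_sub_one_sub_id_le hx
    rw [Real.norm_eq_abs, Real.norm_eq_abs, sq_abs] at h3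
    have h4 := le_abs_self (Real.exp (-s) - 1 - -s)
    -- exp(-s) ≤ 1 - s + s^2 is not enough near s = 1; use convexity instead
    have hconv : Real.exp (-s) ≤ 1 - s * (1 - Real.exp (-1)) := by
      have := convexOn_exp.2 (Set.mem_univ (0 : ℝ)) (Set.mem_univ (-1 : ℝ))
        (show (0 : ℝ) ≤ 1 - s by linarith) hs (by ring)
      simp only [smul_eq_mul, mul_zero, zero_add, Real.exp_zero, mul_one, mul_neg] at this
      linarith
    have he : Real.exp (-1) ≤ 1 / 2 := by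
      rw [Real.exp_neg, one_div]
      apply inv_anti₀ (by norm_num)
      linarith [Real.exp_one_gt_d9]
    nlinarith
  have h5 : Real.exp (-s) * Real.cos θ ≤ Real.exp (-s) := by
    have := Real.cos_le_one θ
    nlinarith [Real.exp_pos (-s)]
  linarith

/-- the constant `A` -/
noncomputable def AA (d : ℕ) : ℝ := 15 * d ^ 5 * KK 3

lemma AA_pos {d : ℕ} (hd : 2 ≤ d) : 0 < AA d := by
  unfold AA
  have h1 : (0 : ℝ) < d := by exact_mod_cast (by omega : 0 < d)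
  have := KK_pos 3
  positivity

theorem tilt_bound {d n : ℕ} {s : ℝ} {m : ℕ} (hd : 2 ≤ d) (h : Adm n s m) (ρ β : ℝ)
    (hρ0 : 0 ≤ ρ) (hρ1 : ρ ≤ Real.pi) (hρ : d ^ 3 * KK 2 * (m : ℝ) ^ 3 * ρ ^ 2 ≤ 1)
    (hβ : 0 < β) (hβ2 : β ^ 2 = 1 / (45 * (d : ℝ) ^ 2) * (m : ℝ) ^ 3) :
    s / 2 * ρ - AA d * (m : ℝ) ^ 4 * (s * (gp 3 / β ^ 4) + gp 4 / β ^ 5
        + 1000 * Real.exp (-(1 / (6 * (d : ℝ) ^ 2) * m)))
      ≤ ∫ θ in (-Real.pi)..Real.pi, (psi d n s θ * ker s 0 θ).re := by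
  have hpi := Real.pi_pos
  have hd1 : 1 ≤ d := by omega
  have hs := h.s_nonneg
  have hs1 : s ≤ 1 := by
    have h1 : (1 : ℝ) ≤ m := by exact_mod_cast h.one_le
    nlinarith [h.s_le]
  set E2 := Real.exp (-(1 / (6 * (d : ℝ) ^ 2) * m)) with hE2
  have hE2pos : 0 < E2 := Real.exp_pos _
  have hApos := AA_pos hd
  set F : ℝ → ℝ := fun θ => s / 2 * G d n s θ - AA d * (m : ℝ) ^ 4 *
    (s * (|θ| ^ 3 * Real.exp (-(β ^ 2 * θ ^ 2))) + |θ| ^ 4 * Real.exp (-(β ^ 2 * θ ^ 2))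
      + 150 * E2) with hF
  have hFcont : Continuous F := by
    have := continuous_G d n s
    simp only [hF]; fun_prop
  have hRcont : Continuous (fun θ => (psi d n s θ * ker s 0 θ).re) :=
    Complex.continuous_re.comp ((continuous_psi d n s).mul (continuous_ker s 0))
  have hpt : ∀ θ ∈ Set.Icc (-Real.pi) Real.pi, F θ ≤ (psi d n s θ * ker s 0 θ).re := by
    intro θ hθ
    have habs : |θ| ≤ Real.pi := abs_le.mpr ⟨hθ.1, hθ.2⟩
    have h1 := psi_sub_G hd h θ habs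
    have e1 : -(1 / (45 * (d : ℝ) ^ 2) * (m : ℝ) ^ 3 * θ ^ 2) = -(β ^ 2 * θ ^ 2) := by rw [hβ2]
    rw [e1, ← hE2] at h1
    have h2 : (psi d n s θ * ker s 0 θ).re = G d n s θ * (ker s 0 θ).re
        + ((psi d n s θ - (G d n s θ : ℂ)) * ker s 0 θ).re := by
      rw [← Complex.re_ofReal_mul, ← Complex.add_re]; congr 1; ring
    rw [h2]
    have h3 : s / 2 * G d n s θ ≤ G d n s θ * (ker s 0 θ).re := by
      have := mul_le_mul_of_nonneg_left (ker_zero_re s θ hs hs1) (G_pos d n s θ).le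
      linarith
    have h4 : -(‖psi d n s θ - (G d n s θ : ℂ)‖ * (s + |θ|))
        ≤ ((psi d n s θ - (G d n s θ : ℂ)) * ker s 0 θ).re := by
      have h5 := Complex.abs_re_le_norm ((psi d n s θ - (G d n s θ : ℂ)) * ker s 0 θ)
      rw [norm_mul] at h5
      have h6 := mul_le_mul_of_nonneg_left (ker_zero_norm s θ hs)
        (norm_nonneg (psi d n s θ - (G d n s θ : ℂ)))
      have h7 := neg_abs_le ((psi d n s θ - (G d n s θ : ℂ)) * ker s 0 θ).re
      linarith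
    have h8 : ‖psi d n s θ - (G d n s θ : ℂ)‖ * (s + |θ|)
        ≤ AA d * (m : ℝ) ^ 4 * (s * (|θ| ^ 3 * Real.exp (-(β ^ 2 * θ ^ 2)))
          + |θ| ^ 4 * Real.exp (-(β ^ 2 * θ ^ 2)) + 150 * E2) := by
      have h9 : ‖psi d n s θ - (G d n s θ : ℂ)‖ * (s + |θ|)
          ≤ (AA d * (m : ℝ) ^ 4 * |θ| ^ 3 * (Real.exp (-(β ^ 2 * θ ^ 2)) + E2)) * (s + |θ|) :=
        mul_le_mul_of_nonneg_right h1 (by positivity)
      refine h9.trans ?_
      have h10 : |θ| ^ 3 * (s + |θ|) ≤ 150 := by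
        have h11 : |θ| ^ 3 ≤ 32 := by
          calc |θ| ^ 3 ≤ (3.15 : ℝ) ^ 3 :=
                pow_le_pow_left₀ (abs_nonneg _) (habs.trans Real.pi_lt_d2.le) 3
            _ ≤ 32 := by norm_num
        have h12 : s + |θ| ≤ 4.15 := by linarith [Real.pi_lt_d2]
        calc |θ| ^ 3 * (s + |θ|) ≤ 32 * 4.15 :=
              mul_le_mul h11 h12 (by positivity) (by norm_num)
          _ ≤ 150 := by norm_num
      have h13 : |θ| ^ 3 * (s + |θ|) * E2 ≤ 150 * E2 := mul_le_mul_of_nonneg_right h10 hE2pos.le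
      calc (AA d * (m : ℝ) ^ 4 * |θ| ^ 3 * (Real.exp (-(β ^ 2 * θ ^ 2)) + E2)) * (s + |θ|)
          = AA d * (m : ℝ) ^ 4 * (s * (|θ| ^ 3 * Real.exp (-(β ^ 2 * θ ^ 2)))
          + |θ| ^ 4 * Real.exp (-(β ^ 2 * θ ^ 2)) + |θ| ^ 3 * (s + |θ|) * E2) := by ring
        _ ≤ _ := by
            apply mul_le_mul_of_nonneg_left _ (by positivity)
            linarith
    simp only [hF]
    linarith
  have hint := intervalIntegral.integral_mono_on (μ := volume) (by linarith : -Real.pi ≤ Real.pi)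
    (hFcont.intervalIntegrable _ _) (hRcont.intervalIntegrable _ _) hpt
  refine le_trans ?_ hint
  have hcE3 : Continuous (fun θ : ℝ => |θ| ^ 3 * Real.exp (-(β ^ 2 * θ ^ 2))) := by fun_prop
  have hcE4 : Continuous (fun θ : ℝ => |θ| ^ 4 * Real.exp (-(β ^ 2 * θ ^ 2))) := by fun_prop
  have hFint : ∫ θ in (-Real.pi)..Real.pi, F θ
      = s / 2 * (∫ θ in (-Real.pi)..Real.pi, G d n s θ) - AA d * (m : ℝ) ^ 4 *
        (s * (∫ θ in (-Real.pi)..Real.pi, |θ| ^ 3 * Real.exp (-(β ^ 2 * θ ^ 2)))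
          + (∫ θ in (-Real.pi)..Real.pi, |θ| ^ 4 * Real.exp (-(β ^ 2 * θ ^ 2)))
          + 2 * Real.pi * (150 * E2)) := by
    have i1 : IntervalIntegrable (fun θ : ℝ => s * (|θ| ^ 3 * Real.exp (-(β ^ 2 * θ ^ 2))))
        volume (-Real.pi) Real.pi := (continuous_const.mul hcE3).intervalIntegrable _ _
    have i2 : IntervalIntegrable (fun θ : ℝ => |θ| ^ 4 * Real.exp (-(β ^ 2 * θ ^ 2)))
        volume (-Real.pi) Real.pi := hcE4.intervalIntegrable _ _
    have i3 : IntervalIntegrable (fun _ : ℝ => 150 * E2)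
        volume (-Real.pi) Real.pi := continuous_const.intervalIntegrable _ _
    have i4 : IntervalIntegrable (fun θ : ℝ => s / 2 * G d n s θ)
        volume (-Real.pi) Real.pi :=
      (continuous_const.mul (continuous_G d n s)).intervalIntegrable _ _
    have i5 : IntervalIntegrable (fun θ : ℝ => AA d * (m : ℝ) ^ 4 *
        (s * (|θ| ^ 3 * Real.exp (-(β ^ 2 * θ ^ 2))) + |θ| ^ 4 * Real.exp (-(β ^ 2 * θ ^ 2))
        + 150 * E2)) volume (-Real.pi) Real.pi := ((i1.add i2).add i3).const_mul _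
    simp only [hF]
    rw [intervalIntegral.integral_sub i4 i5, intervalIntegral.integral_const_mul,
      intervalIntegral.integral_const_mul, intervalIntegral.integral_add (i1.add i2) i3,
      intervalIntegral.integral_add i1 i2, intervalIntegral.integral_const_mul,
      intervalIntegral.integral_const]
    simp only [smul_eq_mul]; ring
  rw [hFint]
  have hG := int_G_ge d n hd1 s _ ρ (sig2_le hd1 h) hρ0 hρ1 hρ
  have hg3 := gauss_moment 3 β hβ
  have hg4 := gauss_moment 4 β hβ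
  have h1 : s / 2 * ρ ≤ s / 2 * (∫ θ in (-Real.pi)..Real.pi, G d n s θ) :=
    mul_le_mul_of_nonneg_left hG (by positivity)
  have h2 : s * (∫ θ in (-Real.pi)..Real.pi, |θ| ^ 3 * Real.exp (-(β ^ 2 * θ ^ 2)))
      ≤ s * (gp 3 / β ^ 4) := mul_le_mul_of_nonneg_left hg3 hs
  have h3 : 2 * Real.pi * (150 * E2) ≤ 1000 * E2 := by
    nlinarith [Real.pi_lt_d2]
  have h4 : AA d * (m : ℝ) ^ 4 *
        (s * (∫ θ in (-Real.pi)..Real.pi, |θ| ^ 3 * Real.exp (-(β ^ 2 * θ ^ 2)))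
          + (∫ θ in (-Real.pi)..Real.pi, |θ| ^ 4 * Real.exp (-(β ^ 2 * θ ^ 2)))
          + 2 * Real.pi * (150 * E2))
      ≤ AA d * (m : ℝ) ^ 4 * (s * (gp 3 / β ^ 4) + gp 4 / β ^ 5 + 1000 * E2) := by
    apply mul_le_mul_of_nonneg_left _ (by positivity)
    linarith
  linarith

/-- Positivity in the tilted regime. -/
theorem tilt_pos (d : ℕ) (hd : 2 ≤ d) : ∃ C1 : ℝ, 0 < C1 ∧ ∃ M0 : ℕ, ∀ (n : ℕ) (s : ℝ) (m : ℕ),
    Adm n s m → M0 ≤ m → C1 / (m : ℝ) ^ 2 ≤ s →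
      0 ≤ ∫ θ in (-Real.pi)..Real.pi, (psi d n s θ * ker s 0 θ).re := by
  have hd0 : (0 : ℝ) < d := by exact_mod_cast (by omega : 0 < d)
  have hd1 : (1 : ℝ) ≤ d := by exact_mod_cast (by omega : 1 ≤ d)
  have hA := AA_pos hd
  have hg3 := gp_pos 3
  have hg4 := gp_pos 4
  set B2 : ℝ := d ^ 3 * KK 2 with hB2
  have hB2pos : 0 < B2 := by have := KK_pos 2; positivity
  have hB2one : 1 ≤ B2 := by
    have h1 : (1 : ℝ) ≤ KK 2 := by
      unfold KK
      have : (0 : ℝ) ≤ ((2 + 2).factorial : ℝ) * 2 ^ (2 + 2) := by positivity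
      linarith
    have h2 : (1 : ℝ) ≤ (d : ℝ) ^ 3 := one_le_pow₀ hd1
    nlinarith
  set c2 : ℝ := 1 / (45 * (d : ℝ) ^ 2) with hc2
  have hc2pos : 0 < c2 := by positivity
  set c3 : ℝ := 1 / (6 * (d : ℝ) ^ 2) with hc3
  have hc3pos : 0 < c3 := by positivity
  set b : ℝ := Real.sqrt B2 with hb
  have hbpos : 0 < b := Real.sqrt_pos.mpr hB2pos
  have hb2 : b ^ 2 = B2 := Real.sq_sqrt hB2pos.le
  set γ : ℝ := Real.sqrt c2 with hγ
  have hγpos : 0 < γ := Real.sqrt_pos.mpr hc2pos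
  have hγ2 : γ ^ 2 = c2 := Real.sq_sqrt hc2pos.le
  set η : ℝ := 1 / (8 * b) with hη
  have hηpos : 0 < η := by positivity
  set C1 : ℝ := AA d * gp 4 / γ ^ 5 / η + 1 with hC1
  have hC1pos : 0 < C1 := by positivity
  refine ⟨C1, hC1pos, ?_⟩
  have ev1 := ev_sqrt (η * γ ^ 4 / (AA d * gp 3)) (by positivity)
  have ev2 := ev_exp 8 c3 hc3pos (η * C1 / (1000 * AA d)) (by positivity)
  obtain ⟨M0, hM0⟩ := ((ev1.and ev2).and (eventually_ge_atTop 1)).exists_forall_of_atTop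
  refine ⟨M0, fun n s m h hm hs => ?_⟩
  obtain ⟨⟨h1, h2⟩, h3⟩ := hM0 m hm
  have hm1 : (1 : ℝ) ≤ m := by exact_mod_cast h3
  have hm0 : (0 : ℝ) < m := by linarith
  set r : ℝ := Real.sqrt ((m : ℝ) ^ 3) with hr
  have hrpos : 0 < r := Real.sqrt_pos.mpr (by positivity)
  have hr2 : r ^ 2 = (m : ℝ) ^ 3 := Real.sq_sqrt (by positivity)
  have hrm : r ≤ (m : ℝ) ^ 2 := by
    rw [hr, Real.sqrt_le_left (by positivity)]
    calc (m : ℝ) ^ 3 ≤ (m : ℝ) ^ 4 := pow_le_pow_right₀ hm1 (by norm_num)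
      _ = _ := by ring
  have hspos : 0 < s := lt_of_lt_of_le (by positivity) hs
  have hsm : C1 ≤ s * (m : ℝ) ^ 2 := by
    rw [div_le_iff₀ (by positivity)] at hs; exact hs
  -- apply the bound
  have hbound := tilt_bound hd h (1 / (b * r)) (γ * r) (by positivity) ?_ ?_ (by positivity) ?_
  · refine le_trans ?_ hbound
    set E2 := Real.exp (-(c3 * m)) with hE2
    have hE2pos : 0 < E2 := Real.exp_pos _
    -- the three error terms
    have t1 : AA d * (m : ℝ) ^ 4 * (s * (gp 3 / (γ * r) ^ 4)) ≤ s * (η / r) := by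
      have e1 : (γ * r) ^ 4 = γ ^ 4 * ((m : ℝ) ^ 3) ^ 2 := by
        rw [mul_pow, ← hr2]; ring
      rw [e1]
      have e2 : AA d * (m : ℝ) ^ 4 * (s * (gp 3 / (γ ^ 4 * ((m : ℝ) ^ 3) ^ 2)))
          = s * (AA d * gp 3 / (γ ^ 4 * (m : ℝ) ^ 2)) := by field_simp
      rw [e2]
      apply mul_le_mul_of_nonneg_left _ hspos.le
      rw [div_le_div_iff₀ (by positivity) hrpos]
      have h4 : r * (AA d * gp 3) ≤ (η * γ ^ 4 * (m : ℝ) ^ 2) := by
        have := mul_le_mul_of_nonneg_right h1 (by positivity : 0 ≤ AA d * gp 3)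
        calc r * (AA d * gp 3) ≤ _ := this
          _ = _ := by field_simp
      linarith
    have t2 : AA d * (m : ℝ) ^ 4 * (gp 4 / (γ * r) ^ 5) ≤ s * (η / r) := by
      have e1 : (γ * r) ^ 5 = γ ^ 5 * ((m : ℝ) ^ 6 * r) := by
        have : r ^ 5 = (r ^ 2) ^ 2 * r := by ring
        rw [mul_pow, this, hr2]; ring
      rw [e1]
      have e2 : AA d * (m : ℝ) ^ 4 * (gp 4 / (γ ^ 5 * ((m : ℝ) ^ 6 * r)))
          = (AA d * gp 4 / γ ^ 5) / ((m : ℝ) ^ 2 * r) := by field_simp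
      rw [e2, div_le_iff₀ (by positivity)]
      have h4 : AA d * gp 4 / γ ^ 5 ≤ C1 * η := by
        rw [hC1, add_mul, div_mul_cancel₀ _ hηpos.ne', one_mul]; linarith
      calc AA d * gp 4 / γ ^ 5 ≤ C1 * η := h4
        _ ≤ (s * (m : ℝ) ^ 2) * η := mul_le_mul_of_nonneg_right hsm hηpos.le
        _ = s * (η / r) * ((m : ℝ) ^ 2 * r) := by field_simp
    have t3 : AA d * (m : ℝ) ^ 4 * (1000 * E2) ≤ s * (η / r) := by
      have h4 : 1000 * AA d * ((m : ℝ) ^ 8 * E2) ≤ η * C1 := by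
        have := mul_le_mul_of_nonneg_left h2 (by positivity : 0 ≤ 1000 * AA d)
        calc _ ≤ _ := this
          _ = _ := by field_simp
      rw [mul_div_assoc', le_div_iff₀ hrpos]
      have h5 : AA d * (m : ℝ) ^ 4 * (1000 * E2) * r * (m : ℝ) ^ 2 ≤ s * η * (m : ℝ) ^ 2 := by
        calc AA d * (m : ℝ) ^ 4 * (1000 * E2) * r * (m : ℝ) ^ 2
            = (1000 * AA d * E2 * (m : ℝ) ^ 6) * r := by ring
          _ ≤ (1000 * AA d * E2 * (m : ℝ) ^ 6) * (m : ℝ) ^ 2 :=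
              mul_le_mul_of_nonneg_left hrm (by positivity)
          _ = 1000 * AA d * ((m : ℝ) ^ 8 * E2) := by ring
          _ ≤ η * C1 := h4
          _ ≤ η * (s * (m : ℝ) ^ 2) := mul_le_mul_of_nonneg_left hsm hηpos.le
          _ = _ := by ring
      exact le_of_mul_le_mul_right h5 (by positivity)
    have t0 : s / 2 * (1 / (b * r)) = 4 * (s * (η / r)) := by
      rw [hη]; field_simp; ring
    have hpos : 0 ≤ s * (η / r) := by positivity
    have e3 : AA d * (m : ℝ) ^ 4 * (s * (gp 3 / (γ * r) ^ 4) + gp 4 / (γ * r) ^ 5 + 1000 * E2)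
        = AA d * (m : ℝ) ^ 4 * (s * (gp 3 / (γ * r) ^ 4)) + AA d * (m : ℝ) ^ 4 * (gp 4 / (γ * r) ^ 5)
          + AA d * (m : ℝ) ^ 4 * (1000 * E2) := by ring
    rw [e3, t0]
    linarith
  · -- ρ ≤ π
    have hb1 : 1 ≤ b := by rw [hb, Real.one_le_sqrt]; exact hB2one
    have hr1 : 1 ≤ r := by rw [hr, Real.one_le_sqrt]; exact one_le_pow₀ hm1
    have : 1 / (b * r) ≤ 1 := by
      rw [div_le_one (by positivity)]; nlinarith
    linarith [Real.pi_gt_three]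
  · rw [div_pow, mul_pow, hb2, hr2, one_pow, mul_one_div, div_le_one (by positivity)]
  · rw [mul_pow, hγ2, hr2]

end Pool.Agent.Lib_MP_97158b_co
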